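import Pool.Agent.K3h11.BS.Stm

/-! # Brick BLK (helper51) -/

set_option autoImplicit false

open Equiv Equiv.Perm MulAction
open scoped Pointwise

namespace K3h11.BS.Blk

theorem main : K3h11.BS.StBlk := by
  intro n H htr hnp
  obtain ⟨B, hB, hBt⟩ : ∃ B : Set (Fin n), IsBlock H B ∧ ¬ IsTrivialBlock B := by
    by_contra hcon
    push Not at hcon
    exact hnp { toIsPretransitive := htr, isTrivialBlock_of_isBlock := fun {B} hB => hcon B hB }
  rw [isBlock_iff_smul_eq_of_mem] at hB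
  have hns : ¬ B.Subsingleton := fun h => hBt (Or.inl h)
  have hnu : B ≠ Set.univ := fun h => hBt (Or.inr h)
  -- the key property of the block
  have hkey : ∀ h ∈ H, ∀ b ∈ B, h b ∈ B → ∀ y, h y ∈ B ↔ y ∈ B := by
    intro h hh b hb hhb y
    have h1 := hB (g := ⟨h, hh⟩) hb hhb
    constructor
    · intro hy
      rw [← h1, Set.mem_smul_set_iff_inv_smul_mem] at hy
      have h2 : (((⟨h, hh⟩ : H)⁻¹ • (h y) : Fin n)) = y := by
        change h⁻¹ (h y) = y
        simp
      rwa [h2] at hy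
    · intro hy
      have h3 : (⟨h, hh⟩ : H) • y ∈ (⟨h, hh⟩ : H) • B := Set.smul_mem_smul_set hy
      rw [h1] at h3
      exact h3
  let r : Setoid (Fin n) :=
    { r := fun x y => ∀ h ∈ H, (h x ∈ B ↔ h y ∈ B)
      iseqv :=
        { refl := fun x h _ => Iff.rfl
          symm := fun hxy h hh => (hxy h hh).symm
          trans := fun hxy hyz h hh => (hxy h hh).trans (hyz h hh) } }
  have hr : ∀ x y, r x y ↔ ∀ h ∈ H, (h x ∈ B ↔ h y ∈ B) := fun x y => Iff.rfl
  have hinv : ∀ h ∈ H, ∀ x y, r x y → r (h x) (h y) := by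
    intro h hh x y hxy
    rw [hr] at hxy ⊢
    intro g hg
    exact hxy (g * h) (H.mul_mem hg hh)
  have hrb : ∀ b ∈ B, ∀ y, r b y ↔ y ∈ B := by
    intro b hb y
    rw [hr]
    constructor
    · intro h
      exact (h 1 H.one_mem).mp hb
    · intro hy h hh
      constructor
      · intro h1
        exact (hkey h hh b hb h1 y).mpr hy
      · intro h1
        exact (hkey h hh y hy h1 b).mpr hb
  obtain ⟨b₀, hb₀⟩ : B.Nonempty := by
    by_contra h
    rw [Set.not_nonempty_iff_eq_empty] at h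
    exact hns (h ▸ Set.subsingleton_empty)
  have hto : ∀ x, ∃ g ∈ H, g x ∈ B ∧ ∀ y, r x y ↔ g y ∈ B := by
    intro x
    obtain ⟨g, hg⟩ := htr.exists_smul_eq x b₀
    have hg' : (g : Perm (Fin n)) x = b₀ := hg
    refine ⟨g, g.2, by rw [hg']; exact hb₀, fun y => ?_⟩
    rw [← hrb b₀ hb₀, ← hg']
    constructor
    · exact hinv g g.2 x y
    · intro h
      have h1 := hinv (g : Perm (Fin n))⁻¹ (H.inv_mem g.2) _ _ h
      simpa using h1
  refine ⟨r, hinv, ?_, ?_⟩
  · obtain ⟨y, hy⟩ : ∃ y, y ∉ B := by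
      by_contra h
      push Not at h
      exact hnu (Set.eq_univ_of_forall h)
    exact ⟨b₀, y, fun h => hy ((hrb b₀ hb₀ y).mp h)⟩
  · by_cases h3 : ∃ u ∈ B, ∃ v ∈ B, ∃ w ∈ B, u ≠ v ∧ u ≠ w ∧ v ≠ w
    · left
      obtain ⟨u, hu, v, hv, w, hw, huv, huw, hvw⟩ := h3
      intro x
      obtain ⟨g, hg, hgx, hgy⟩ := hto x
      have hpull : ∀ z ∈ B, z ≠ g x → g⁻¹ z ≠ x ∧ r x (g⁻¹ z) := by
        intro z hz hzx
        refine ⟨fun h => hzx (by rw [← h]; simp), (hgy _).mpr (by simpa using hz)⟩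
      have hinj : ∀ a b : Fin n, a ≠ b → g⁻¹ a ≠ g⁻¹ b := fun a b hab h => hab (g⁻¹.injective h)
      by_cases h4 : u = g x
      · obtain ⟨h5, h6⟩ := hpull v hv (fun h => huv (h4.trans h.symm))
        obtain ⟨h7, h8⟩ := hpull w hw (fun h => huw (h4.trans h.symm))
        exact ⟨g⁻¹ v, g⁻¹ w, h5, h7, hinj v w hvw, h6, h8⟩
      · obtain ⟨h5, h6⟩ := hpull u hu h4
        by_cases h9 : v = g x
        · obtain ⟨h7, h8⟩ := hpull w hw (fun h => hvw (h9.trans h.symm))
          exact ⟨g⁻¹ u, g⁻¹ w, h5, h7, hinj u w huw, h6, h8⟩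
        · obtain ⟨h7, h8⟩ := hpull v hv h9
          exact ⟨g⁻¹ u, g⁻¹ v, h5, h7, hinj u v huv, h6, h8⟩
    · right
      push Not at h3
      rw [Set.not_subsingleton_iff] at hns
      obtain ⟨u, hu, v, hv, huv⟩ := hns
      have hBuv : ∀ z, z ∈ B ↔ z = u ∨ z = v := by
        intro z
        constructor
        · intro hz
          by_contra hcon
          push Not at hcon
          exact hcon.2 (h3 u hu v hv z hz huv (Ne.symm hcon.1)).symm
        · rintro (rfl | rfl)
          · exact hu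
          · exact hv
      have hex : ∀ x, ∃ y, y ≠ x ∧ ∀ z, r x z ↔ (z = x ∨ z = y) := by
        intro x
        obtain ⟨g, hg, hgx, hgy⟩ := hto x
        have hgz : ∀ z w : Fin n, g z = w ↔ z = g⁻¹ w := by
          intro z w
          constructor
          · rintro rfl
            simp
          · rintro rfl
            simp
        rcases (hBuv _).mp hgx with h4 | h4
        · refine ⟨g⁻¹ v, fun h => huv ?_, fun z => ?_⟩
          · rw [← h4, ← h]
            simp
          · rw [hgy, hBuv, hgz, hgz, ← (hgz x u).mp h4]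
        · refine ⟨g⁻¹ u, fun h => huv ?_, fun z => ?_⟩
          · rw [← h4, ← h]
            simp
          · rw [hgy, hBuv, hgz, hgz, ← (hgz x v).mp h4, or_comm]
      choose p hp hp' using hex
      exact ⟨p, hp, fun x y => hp' x y⟩

end K3h11.BS.Blk
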