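import Pool.Agent.K3h11.BS.Stm

set_option autoImplicit false

/-!
# Brick COMB: no invariant family of 4-sets closed under the code operations, degree at least 9
-/

open Equiv Equiv.Perm MulAction

namespace K3h11.BS.Comb

theorem inter_card {α : Type*} [DecidableEq α] {F F' : Finset α} (hF : F.card = 4)
    (hF' : F'.card = 4) (hne : F ≠ F') (h1 : (F ∩ F').card ≠ 1) (h3 : (F ∩ F').card ≠ 3)
    {y : α} (hy : y ∈ F) (hy' : y ∈ F') : (F ∩ F').card = 2 := by
  have h0 : 0 < (F ∩ F').card := Finset.card_pos.mpr ⟨y, Finset.mem_inter.mpr ⟨hy, hy'⟩⟩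
  have hle : (F ∩ F').card ≤ 4 := hF ▸ Finset.card_le_card Finset.inter_subset_left
  have h4 : (F ∩ F').card ≠ 4 := by
    intro h
    have e1 : F ∩ F' = F := Finset.eq_of_subset_of_card_le Finset.inter_subset_left (by omega)
    have e2 : F ∩ F' = F' := Finset.eq_of_subset_of_card_le Finset.inter_subset_right (by omega)
    exact hne (e1.symm.trans e2)
  omega

theorem main : K3h11.BS.StPrimEq → K3h11.BS.StTrip → K3h11.BS.StComb := by
  intro hPE hTrip n H hn hprim P h4 hinv h1 h3 h2 F0 hF0
  classical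
  have key : ∀ F F', P F → P F' → F ≠ F' → ∀ y, y ∈ F → y ∈ F' → P (symmDiff F F') := by
    intro F F' hF hF' hne y hy hy'
    exact h2 F F' hF hF' (inter_card (h4 F hF) (h4 F' hF') hne (h1 F F' hF hF')
      (h3 F F' hF hF') hy hy')
  -- first relation
  let r : Setoid (Fin n) :=
    { r := fun x y => x = y ∨ ∃ F, P F ∧ x ∈ F ∧ y ∈ F
      iseqv :=
        { refl := fun x => Or.inl rfl
          symm := by
            rintro x y (h | ⟨F, hF, hx, hy⟩)
            · exact Or.inl h.symm
            · exact Or.inr ⟨F, hF, hy, hx⟩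
          trans := by
            rintro x y z (rfl | ⟨F, hF, hx, hy⟩) h
            · exact h
            rcases h with rfl | ⟨F', hF', hy', hz⟩
            · exact Or.inr ⟨F, hF, hx, hy⟩
            right
            by_cases hne : F = F'
            · subst hne; exact ⟨F, hF, hx, hz⟩
            by_cases hzF : z ∈ F
            · exact ⟨F, hF, hx, hzF⟩
            by_cases hxF : x ∈ F'
            · exact ⟨F', hF', hxF, hz⟩
            refine ⟨symmDiff F F', key F F' hF hF' hne y hy hy', ?_, ?_⟩
            · exact Finset.mem_symmDiff.mpr (Or.inl ⟨hx, hxF⟩)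
            · exact Finset.mem_symmDiff.mpr (Or.inr ⟨hz, hzF⟩) } }
  have hr : ∀ h ∈ H, ∀ x y, r x y → r (h x) (h y) := by
    rintro h hh x y (hxy | ⟨F, hF, hx, hy⟩)
    · exact Or.inl (by rw [hxy])
    · exact Or.inr ⟨F.image h, hinv F hF h hh, Finset.mem_image_of_mem _ hx,
        Finset.mem_image_of_mem _ hy⟩
  have hall : ∀ x y, r x y := by
    rcases hPE n H hprim r hr with h | h
    · exact h
    · exfalso
      have : 1 < F0.card := by rw [h4 F0 hF0]; norm_num
      obtain ⟨x, hx, y, hy, hxy⟩ := Finset.one_lt_card.mp this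
      exact hxy (h x y (Or.inr ⟨F0, hF0, hx, hy⟩))
  have hmem : ∀ x y, x ≠ y → ∃ F, P F ∧ x ∈ F ∧ y ∈ F := by
    intro x y hxy
    rcases hall x y with h | h
    · exact absurd h hxy
    · exact h
  -- a point contained in all members through `x`
  have hc : ∀ x : Fin n, ∃ c, c ≠ x ∧ ∀ F, P F → x ∈ F → c ∈ F := by
    intro x
    by_contra hcon
    push Not at hcon
    have hT := hTrip n (fun T => T.card = 3 ∧ x ∉ T ∧ P (insert x T)) (fun T hT => hT.1)
      (by
        rintro T T' ⟨c1, x1, p1⟩ ⟨c2, x2, p2⟩ hne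
        have hne' : insert x T ≠ insert x T' := by
          intro he
          apply hne
          rw [← Finset.erase_insert x1, he, Finset.erase_insert x2]
        have hcard := inter_card (h4 _ p1) (h4 _ p2) hne' (h1 _ _ p1 p2) (h3 _ _ p1 p2)
          (Finset.mem_insert_self x T) (Finset.mem_insert_self x T')
        rw [← Finset.insert_inter_distrib, Finset.card_insert_of_notMem] at hcard
        · omega
        · intro h; exact x1 (Finset.mem_inter.mp h).1)
    have herase : ∀ F, P F → x ∈ F → (F.erase x).card = 3 ∧ x ∉ F.erase x ∧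
        P (insert x (F.erase x)) := by
      intro F hF hx
      refine ⟨?_, Finset.notMem_erase x F, ?_⟩
      · rw [Finset.card_erase_of_mem hx, h4 F hF]
      · rw [Finset.insert_erase hx]; exact hF
    have hy0 : ∃ y : Fin n, x ≠ y := by
      haveI : Nontrivial (Fin n) := Fin.nontrivial_iff_two_le.mpr (by omega)
      obtain ⟨y, hy⟩ := exists_ne x
      exact ⟨y, hy.symm⟩
    have hW := hT (by
      rintro ⟨c, hc⟩
      obtain ⟨y, hy⟩ := hy0
      obtain ⟨F, hF, hx, -⟩ := hmem x y hy
      have hcF := hc _ (herase F hF hx)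
      have hcx : c ≠ x := Finset.ne_of_mem_erase hcF
      obtain ⟨F1, hF1, hx1, hcF1⟩ := hcon c hcx
      exact hcF1 (Finset.mem_of_mem_erase (hc _ (herase F1 hF1 hx1))))
    obtain ⟨W, hW7, hWT⟩ := hW
    have hsub : (Finset.univ : Finset (Fin n)).erase x ⊆ W := by
      intro y hy
      have hyx : y ≠ x := Finset.ne_of_mem_erase hy
      obtain ⟨F, hF, hx, hyF⟩ := hmem x y hyx.symm
      exact hWT _ (herase F hF hx) (Finset.mem_erase.mpr ⟨hyx, hyF⟩)
    have := Finset.card_le_card hsub
    rw [Finset.card_erase_of_mem (Finset.mem_univ x), Finset.card_univ, Fintype.card_fin] at this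
    omega
  have hback : ∀ x c, c ≠ x → (∀ F, P F → x ∈ F → c ∈ F) → ∀ F', P F' → c ∈ F' → x ∈ F' := by
    intro x c hcx hx F' hF' hcF'
    by_contra hxF'
    obtain ⟨F, hF, hxF, hcF⟩ := hmem x c hcx.symm
    have hne : F ≠ F' := by
      intro he; subst he; exact hxF' hxF
    have hs := key F F' hF hF' hne c hcF hcF'
    have hxs : x ∈ symmDiff F F' := Finset.mem_symmDiff.mpr (Or.inl ⟨hxF, hxF'⟩)
    have hcs := hx _ hs hxs
    rcases Finset.mem_symmDiff.mp hcs with h | h
    · exact h.2 hcF'
    · exact h.2 hcF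
  -- second relation
  let r' : Setoid (Fin n) :=
    { r := fun x y => ∀ F, P F → (x ∈ F ↔ y ∈ F)
      iseqv :=
        { refl := fun x F _ => Iff.rfl
          symm := fun h F hF => (h F hF).symm
          trans := fun h h' F hF => (h F hF).trans (h' F hF) } }
  have hr' : ∀ h ∈ H, ∀ x y, r' x y → r' (h x) (h y) := by
    intro h hh x y hxy F hF
    have hP := hinv F hF h⁻¹ (H.inv_mem hh)
    have hm : ∀ z, h z ∈ F ↔ z ∈ F.image ⇑h⁻¹ := by
      intro z
      constructor
      · intro hz
        exact Finset.mem_image.mpr ⟨h z, hz, by simp⟩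
      · intro hz
        obtain ⟨w, hw, hwz⟩ := Finset.mem_image.mp hz
        rw [← hwz]; simpa using hw
    rw [hm x, hm y]
    exact hxy _ hP
  obtain ⟨x0, hx0⟩ : F0.Nonempty := Finset.card_pos.mp (by rw [h4 F0 hF0]; norm_num)
  obtain ⟨c, hcx, hcF⟩ := hc x0
  rcases hPE n H hprim r' hr' with h | h
  · have huniv : (Finset.univ : Finset (Fin n)) ⊆ F0 := by
      intro y _
      exact (h x0 y F0 hF0).mp hx0
    have := Finset.card_le_card huniv
    rw [Finset.card_univ, Fintype.card_fin, h4 F0 hF0] at this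
    omega
  · have : r' x0 c := fun F hF => ⟨hcF F hF, hback x0 c hcx hcF F hF⟩
    exact hcx (h x0 c this).symm

end K3h11.BS.Comb
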