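import Pool.Agent.K3h11.BS.Stm

set_option autoImplicit false

namespace K3h11.BS.Eq2

open Equiv Equiv.Perm MulAction

/-- a point outside of four given ones -/
lemma exists_out (n : ℕ) (hn : 5 ≤ n) (a b c d : Fin n) :
    ∃ y : Fin n, y ≠ a ∧ y ≠ b ∧ y ≠ c ∧ y ≠ d := by
  classical
  have h1 : ({a, b, c, d} : Finset (Fin n)).card < (Finset.univ : Finset (Fin n)).card := by
    rw [Finset.card_univ, Fintype.card_fin]
    exact lt_of_le_of_lt Finset.card_le_four (by omega)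
  obtain ⟨y, -, hy⟩ := Finset.exists_mem_notMem_of_card_lt_card h1
  simp only [Finset.mem_insert, Finset.mem_singleton, not_or] at hy
  exact ⟨y, hy⟩

lemma comm_q {n : ℕ} {H : Subgroup (Perm (Fin n))} {p : Fin n → Fin n}
    (hp : ∀ h ∈ H, ∀ x, h (p x) = p (h x)) (t h : Perm (Fin n)) (hh : t⁻¹ * h * t ∈ H)
    (u : Fin n) : h (t (p (t⁻¹ u))) = t (p (t⁻¹ (h u))) := by
  have ht : ∀ v, t (t⁻¹ v) = v := fun v => t.apply_symm_apply v
  have h1 := hp _ hh (t⁻¹ u)
  simp only [Perm.mul_apply, ht] at h1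
  rw [← h1, ht]

theorem main : K3h11.BS.StEq2 := by
  intro n H p hn hp1 hp2 hp K hK hKb
  have hpi : Function.Injective p := fun a b h => by rw [← hp2 a, h, hp2]
  have hswap : ∀ a b : Fin n, p a = b → a = p b := fun a b h => by rw [← h, hp2]
  by_cases hA : ∃ k0 ∈ K, ∃ x, k0 x ≠ x ∧ k0 x ≠ p x
  · obtain ⟨k0, hk0, x, hx1, hx2⟩ := hA
    obtain ⟨y, hy1, hy2, hy3, hy4⟩ := exists_out n hn x (p x) (k0 x) (p (k0 x))
    refine ⟨swap x y, x, k0, hk0, fun h hh hhc hcon => ?_⟩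
    have e1 := comm_q hp _ h hhc x
    rw [swap_inv, swap_apply_left, hcon, swap_apply_of_ne_of_ne hx1 (Ne.symm hy3),
      swap_apply_of_ne_of_ne (fun h => hy2 (hswap _ _ h)) (hp1 y),
      swap_apply_of_ne_of_ne (fun h => hx2 (hswap _ _ h)) (Ne.symm hy4)] at e1
    have e2 := hp h (hK hh) x
    rw [hcon, ← e1] at e2
    exact hy1 (hpi (h.injective e2)).symm
  · push Not at hA
    obtain ⟨k0, hk0, hk1⟩ : ∃ k0 ∈ K, k0 ≠ 1 := by
      by_contra hcon
      push Not at hcon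
      exact hKb ((Subgroup.eq_bot_iff_forall K).2 hcon)
    obtain ⟨x, hx⟩ : ∃ x, k0 x ≠ x := by
      by_contra hcon
      push Not at hcon
      exact hk1 (Equiv.ext hcon)
    have hx0 := hA k0 hk0 x hx
    obtain ⟨z, hz1, hz2, -, -⟩ := exists_out n hn x (p x) x x
    obtain ⟨y, hy1, hy2, hy3, hy4⟩ := exists_out n hn x (p x) z (p z)
    refine ⟨swap (p x) (p z) * swap z y, x, k0, hk0, fun h hh hhc hcon => ?_⟩
    have e1 := comm_q hp _ h hhc x
    rw [hcon, hx0, mul_inv_rev, swap_inv, swap_inv] at e1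
    simp only [Perm.mul_apply] at e1
    have a1 : swap (p x) (p z) x = x :=
      swap_apply_of_ne_of_ne (Ne.symm (hp1 x)) (fun h => hz2 (hswap _ _ h.symm))
    have a2 : swap z y x = x := swap_apply_of_ne_of_ne (Ne.symm hz1) (Ne.symm hy1)
    have a3 : swap z y (p x) = p x := swap_apply_of_ne_of_ne (Ne.symm hz2) (Ne.symm hy2)
    have a4 : swap z y (p z) = p z := swap_apply_of_ne_of_ne (hp1 z) (Ne.symm hy4)
    have a5 : swap (p x) (p z) y = y := swap_apply_of_ne_of_ne hy2 hy4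
    rw [a1, a2, a3, swap_apply_left, a4, hp2, swap_apply_left, a5] at e1
    -- `h (p z) = y`
    by_cases h5 : h (p z) = p z
    · exact hy4 (e1.symm.trans h5)
    · have h6 := hA h hh (p z) h5
      rw [hp2] at h6
      exact hy3 (e1.symm.trans h6)

end K3h11.BS.Eq2
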