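import Pool.Agent.K3h11.BS.Stm

/-! Brick EQ3: invariant equivalence relations with classes of size at least three. -/

set_option autoImplicit false

open Equiv Equiv.Perm MulAction

namespace K3h11.BS.Eq3

theorem main : K3h11.BS.StEq3 := by
  intro n H r hr hne h3 K hK hKb
  obtain ⟨k0, hk0, hk1⟩ : ∃ k ∈ K, k ≠ 1 := by
    by_contra hcon
    push Not at hcon
    exact hKb ((Subgroup.eq_bot_iff_forall K).mpr hcon)
  obtain ⟨x, hx⟩ : ∃ x, k0 x ≠ x := by
    by_contra hcon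
    push Not at hcon
    exact hk1 (Equiv.ext hcon)
  obtain ⟨y, hy, hyk⟩ : ∃ y, ¬ r x y ∧ y ≠ k0 x := by
    obtain ⟨z, hz⟩ : ∃ z, ¬ r x z := by
      by_contra hcon
      push Not at hcon
      obtain ⟨a, b, hab⟩ := hne
      exact hab (r.trans (r.symm (hcon a)) (hcon b))
    by_cases hzk : z = k0 x
    · obtain ⟨y1, _, hy1, _, _, hr1, _⟩ := h3 z
      exact ⟨y1, fun h => hz (r.trans h (r.symm hr1)), fun h => hy1 (h.trans hzk.symm)⟩
    · exact ⟨z, hz, hzk⟩
  refine ⟨swap x y, x, k0, hk0, ?_⟩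
  intro h hh hconj heq
  have hux : h x ≠ x := by
    rw [heq]
    exact hx
  have huy : h x ≠ y := by
    rw [heq]
    exact hyk.symm
  obtain ⟨z, hzu, hzx, hzy, hrz⟩ : ∃ z, z ≠ h x ∧ z ≠ x ∧ z ≠ y ∧ r (h x) z := by
    obtain ⟨y1, y2, h1, h2, h12, hr1, hr2⟩ := h3 (h x)
    by_cases hA : y1 ≠ x ∧ y1 ≠ y
    · exact ⟨y1, h1, hA.1, hA.2, hr1⟩
    by_cases hB : y2 ≠ x ∧ y2 ≠ y
    · exact ⟨y2, h2, hB.1, hB.2, hr2⟩
    exfalso
    have h4 : r y1 y2 := r.trans (r.symm hr1) hr2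
    by_cases h5 : y1 = x
    · by_cases h6 : y2 = x
      · exact h12 (h5.trans h6.symm)
      · have h7 : y2 = y := by
          by_contra h8
          exact hB ⟨h6, h8⟩
        rw [h5, h7] at h4
        exact hy h4
    · have h7 : y1 = y := by
        by_contra h8
        exact hA ⟨h5, h8⟩
      by_cases h6 : y2 = x
      · rw [h7, h6] at h4
        exact hy (r.symm h4)
      · have h8 : y2 = y := by
          by_contra h9
          exact hB ⟨h6, h9⟩
        exact h12 (h7.trans h8.symm)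
  have hwx : h⁻¹ z ≠ x := by
    intro h5
    apply hzu
    rw [← h5]
    exact (h.apply_symm_apply z).symm
  have hxw : r x (h⁻¹ z) := by
    have h5 := hr h⁻¹ (H.inv_mem (hK hh)) _ _ hrz
    have h6 : h⁻¹ (h x) = x := h.symm_apply_apply x
    rwa [h6] at h5
  have htu : swap x y (h x) = h x := swap_apply_of_ne_of_ne hux huy
  have htz : swap x y z = z := swap_apply_of_ne_of_ne hzx hzy
  have hyw : r y (swap x y (h⁻¹ z)) := by
    have h5 := hr _ (H.inv_mem hconj) _ _ hrz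
    have h6 : ((swap x y)⁻¹ * h * swap x y)⁻¹ (h x) = y := by
      rw [mul_inv_rev, mul_inv_rev, inv_inv, Perm.mul_apply, Perm.mul_apply, swap_inv, htu]
      have h6 : h⁻¹ (h x) = x := h.symm_apply_apply x
      rw [h6, swap_apply_left]
    have h7 : ((swap x y)⁻¹ * h * swap x y)⁻¹ z = swap x y (h⁻¹ z) := by
      rw [mul_inv_rev, mul_inv_rev, inv_inv, Perm.mul_apply, Perm.mul_apply, swap_inv, htz]
    rwa [h6, h7] at h5
  by_cases hwy : h⁻¹ z = y
  · rw [hwy] at hxw
    exact hy hxw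
  · rw [swap_apply_of_ne_of_ne hwx hwy] at hyw
    exact hy (r.trans hxw (r.symm hyw))

end K3h11.BS.Eq3
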