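import Mathlib

/-!
# Base sizes of faithful actions of symmetric groups: statements of the bricks

Target (MP_3e5dca_al): every faithful action of `S_n` has a base of size at most `n`.
-/

open Equiv Equiv.Perm MulAction

namespace K3h11.BS

/-- Some `n` conjugates of the subgroup `H` of `S_n` meet trivially. -/
def HasConj (n : ℕ) (H : Subgroup (Perm (Fin n))) : Prop :=
  ∃ g : Fin n → Perm (Fin n), ∀ k : Perm (Fin n), (∀ i, (g i)⁻¹ * k * g i ∈ H) → k = 1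

/-- Every nontrivial subgroup `K ≤ H` can be cut by a conjugate of `H` so that the number of
orbits goes up: the point `k x` of the `K`-orbit of `x` is not in the orbit of `x` under
`K ∩ g H g⁻¹`. -/
def StepProp (n : ℕ) (H : Subgroup (Perm (Fin n))) : Prop :=
  ∀ K : Subgroup (Perm (Fin n)), K ≤ H → K ≠ ⊥ →
    ∃ (g : Perm (Fin n)) (x : Fin n) (k : Perm (Fin n)), k ∈ K ∧
      ∀ h ∈ K, g⁻¹ * h * g ∈ H → h x ≠ k x

/-- `H` contains no nontrivial product of two transpositions (where `swap a a = 1` is allowed,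
so transpositions, 3-cycles and double transpositions are all excluded). -/
def NoDT (n : ℕ) (H : Subgroup (Perm (Fin n))) : Prop :=
  ∀ a b c d : Fin n, swap a b * swap c d ∈ H → swap a b * swap c d = 1

/-- `F` is a 4-set carrying a double transposition of `H`. -/
def GoodSet (n : ℕ) (H : Subgroup (Perm (Fin n))) (F : Finset (Fin n)) : Prop :=
  ∃ a b c d : Fin n, a ≠ b ∧ a ≠ c ∧ a ≠ d ∧ b ≠ c ∧ b ≠ d ∧ c ≠ d ∧ F = {a, b, c, d} ∧
    swap a b * swap c d ∈ H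

/-- Brick STEP. -/
def StStep : Prop := ∀ (n : ℕ) (H : Subgroup (Perm (Fin n))), 1 ≤ n → StepProp n H → HasConj n H

/-- Brick INTR: intransitive subgroups. -/
def StIntr : Prop := ∀ (n : ℕ) (H : Subgroup (Perm (Fin n))) (A : Finset (Fin n)),
  A.Nonempty → A ≠ Finset.univ → (∀ h ∈ H, ∀ x, h x ∈ A ↔ x ∈ A) → HasConj n H

/-- Brick BLK: from an imprimitive transitive group to an invariant equivalence relation. -/
def StBlk : Prop := ∀ (n : ℕ) (H : Subgroup (Perm (Fin n))),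
  IsPretransitive H (Fin n) → ¬ IsPreprimitive H (Fin n) →
  ∃ r : Setoid (Fin n), (∀ h ∈ H, ∀ x y, r x y → r (h x) (h y)) ∧ (∃ x y, ¬ r x y) ∧
    ((∀ x, ∃ y z, y ≠ x ∧ z ≠ x ∧ y ≠ z ∧ r x y ∧ r x z) ∨
      (∃ p : Fin n → Fin n, (∀ x, p x ≠ x) ∧ ∀ x y, r x y ↔ (y = x ∨ y = p x)))

/-- Brick PEQ: a primitive group preserves no nontrivial equivalence relation. -/
def StPrimEq : Prop := ∀ (n : ℕ) (H : Subgroup (Perm (Fin n))), IsPreprimitive H (Fin n) →
  ∀ r : Setoid (Fin n), (∀ h ∈ H, ∀ x y, r x y → r (h x) (h y)) →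
    (∀ x y, r x y) ∨ (∀ x y, r x y → x = y)

/-- Brick EQ3: invariant equivalence relation with classes of size at least three. -/
def StEq3 : Prop := ∀ (n : ℕ) (H : Subgroup (Perm (Fin n))) (r : Setoid (Fin n)),
  (∀ h ∈ H, ∀ x y, r x y → r (h x) (h y)) → (∃ x y, ¬ r x y) →
  (∀ x, ∃ y z, y ≠ x ∧ z ≠ x ∧ y ≠ z ∧ r x y ∧ r x z) → StepProp n H

/-- Brick EQ2: `H` commutes with a fixed-point-free involution. -/
def StEq2 : Prop := ∀ (n : ℕ) (H : Subgroup (Perm (Fin n))) (p : Fin n → Fin n), 5 ≤ n →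
  (∀ x, p x ≠ x) → (∀ x, p (p x) = x) → (∀ h ∈ H, ∀ x, h (p x) = p (h x)) → StepProp n H

/-- Brick NDT. -/
def StNdt : Prop := ∀ (n : ℕ) (H : Subgroup (Perm (Fin n))), 3 ≤ n → NoDT n H → StepProp n H

/-- Brick FIVE: Jordan type lemma. -/
def StFive : Prop := ∀ (n : ℕ) (H : Subgroup (Perm (Fin n))), 8 ≤ n → IsPreprimitive H (Fin n) →
  ∀ S : Finset (Fin n), S.card = 5 →
    (∀ x ∈ S, ∀ y ∈ S, ∃ h ∈ H, h x = y ∧ ∀ z, z ∉ S → h z = z) →
    ∀ F, GoodSet n H F → ∃ s ∈ H, IsThreeCycle s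

/-- Brick G1: two good sets do not meet in exactly one point. -/
def StG1 : Prop := ∀ (n : ℕ) (H : Subgroup (Perm (Fin n))), (∀ s ∈ H, ¬ IsThreeCycle s) →
  ∀ F F', GoodSet n H F → GoodSet n H F' → (F ∩ F').card ≠ 1

/-- Brick G2: symmetric difference of good sets meeting in two points. -/
def StG2 : Prop := ∀ (n : ℕ) (H : Subgroup (Perm (Fin n))),
  ∀ F F', GoodSet n H F → GoodSet n H F' → (F ∩ F').card = 2 → GoodSet n H (symmDiff F F')

/-- Brick G3: two good sets do not meet in exactly three points. -/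
def StG3 : Prop := ∀ (n : ℕ) (H : Subgroup (Perm (Fin n))), 8 ≤ n → IsPreprimitive H (Fin n) →
  (∀ s ∈ H, ¬ IsThreeCycle s) →
  ∀ F F', GoodSet n H F → GoodSet n H F' → (F ∩ F').card ≠ 3

/-- Brick TRIP: triples pairwise meeting in exactly one point, without a common point. -/
def StTrip : Prop := ∀ (n : ℕ) (P : Finset (Fin n) → Prop), (∀ T, P T → T.card = 3) →
  (∀ T T', P T → P T' → T ≠ T' → (T ∩ T').card = 1) → (¬ ∃ c, ∀ T, P T → c ∈ T) →
  ∃ W : Finset (Fin n), W.card ≤ 7 ∧ ∀ T, P T → T ⊆ W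

/-- Brick COMB: no invariant family of 4-sets closed under the code operations, degree ≥ 9. -/
def StComb : Prop := ∀ (n : ℕ) (H : Subgroup (Perm (Fin n))), 9 ≤ n → IsPreprimitive H (Fin n) →
  ∀ P : Finset (Fin n) → Prop, (∀ F, P F → F.card = 4) →
    (∀ F, P F → ∀ h ∈ H, P (F.image h)) →
    (∀ F F', P F → P F' → (F ∩ F').card ≠ 1) →
    (∀ F F', P F → P F' → (F ∩ F').card ≠ 3) →
    (∀ F F', P F → P F' → (F ∩ F').card = 2 → P (symmDiff F F')) → ∀ F, ¬ P F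

/-- Brick ORD: a subgroup with the full power of `p` contains a conjugate of every `p`-element. -/
def StOrd : Prop := ∀ (n : ℕ) (H : Subgroup (Perm (Fin n))) (p : ℕ), p.Prime →
  p ^ (n.factorial.factorization p) ∣ Nat.card H → ∀ s : Perm (Fin n),
    (∃ k, orderOf s = p ^ k) → ∃ g : Perm (Fin n), g⁻¹ * s * g ∈ H

/-- Brick SML: orders of subgroups of `S_n`, `5 ≤ n ≤ 8`, without 2-cycles and 3-cycles. -/
def StSmall : Prop := ∀ (n : ℕ) (H : Subgroup (Perm (Fin n))), (∀ s ∈ H, ¬ IsSwap s) →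
  (∀ s ∈ H, ¬ IsThreeCycle s) →
  ((n = 5 ∨ n = 6 ∨ n = 7) → ArithmeticFunction.cardFactors (Nat.card H) + 1 ≤ n) ∧
  (n = 8 → ¬ 5 ∣ Nat.card H → Nat.card H ∣ 1344)

/-- Brick N8: degree eight. -/
def StN8 : Prop := ∀ H : Subgroup (Perm (Fin 8)), IsPreprimitive H (Fin 8) →
  ¬ alternatingGroup (Fin 8) ≤ H → (∃ F, GoodSet 8 H F) →
  ArithmeticFunction.cardFactors (Nat.card H) ≤ 7 ∨
  ∃ g : Perm (Fin 8), ∀ K : Subgroup (Perm (Fin 8)),
    (∀ k, k ∈ K ↔ k ∈ H ∧ g⁻¹ * k * g ∈ H) → ArithmeticFunction.cardFactors (Nat.card K) ≤ 6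

/-- Brick GRD: greedy bases. -/
def StGreedy.{u} : Prop := ∀ (n : ℕ) (X : Type u) [MulAction (Perm (Fin n)) X]
  [FaithfulSMul (Perm (Fin n)) X] (K : Subgroup (Perm (Fin n))),
  ∃ B : Finset X, B.card ≤ ArithmeticFunction.cardFactors (Nat.card K) ∧
    ∀ k ∈ K, (∀ x ∈ B, k • x = x) → k = 1

end K3h11.BS
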