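import Mathlib
import Pool.Agent.K3h11.BS.Stm

open Equiv Equiv.Perm MulAction SubMulAction

namespace K3h11.BS.Five

/-- The hypothesis of the brick in terms of the fixing subgroup. -/
theorem pretrans (n : ℕ) (H : Subgroup (Perm (Fin n))) (S : Finset (Fin n))
    (hS : ∀ x ∈ S, ∀ y ∈ S, ∃ h ∈ H, h x = y ∧ ∀ z, z ∉ S → h z = z) :
    IsPretransitive (fixingSubgroup H ((S : Set (Fin n))ᶜ))
      (SubMulAction.ofFixingSubgroup H ((S : Set (Fin n))ᶜ)) := by
  rw [isPretransitive_iff]
  rintro ⟨x, hx⟩ ⟨y, hy⟩
  have hx' : x ∈ S := by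
    simpa [SubMulAction.mem_ofFixingSubgroup_iff] using hx
  have hy' : y ∈ S := by
    simpa [SubMulAction.mem_ofFixingSubgroup_iff] using hy
  obtain ⟨h, hH, hxy, hfix⟩ := hS x hx' y hy'
  have hmem : (⟨h, hH⟩ : ↥H) ∈ fixingSubgroup H ((S : Set (Fin n))ᶜ) := by
    rw [mem_fixingSubgroup_iff]
    intro z hz
    have : z ∉ S := by simpa using hz
    exact hfix z this
  refine ⟨⟨⟨h, hH⟩, hmem⟩, ?_⟩
  apply Subtype.ext
  exact hxy

theorem four_trans (n : ℕ) (H : Subgroup (Perm (Fin n))) (hn : 8 ≤ n)
    (hprim : IsPreprimitive H (Fin n)) (S : Finset (Fin n)) (hcard : S.card = 5)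
    (hS : ∀ x ∈ S, ∀ y ∈ S, ∃ h ∈ H, h x = y ∧ ∀ z, z ∉ S → h z = z) :
    IsMultiplyPretransitive H (Fin n) 4 := by
  classical
  have hsn : ((S : Set (Fin n))ᶜ).ncard = (n - 6) + 1 := by
    have h1 := Set.ncard_add_ncard_compl (S : Set (Fin n))
    rw [Set.ncard_coe_finset, hcard, Nat.card_eq_fintype_card, Fintype.card_fin] at h1
    omega
  have hsn' : (n - 6) + 2 < Nat.card (Fin n) := by
    rw [Nat.card_eq_fintype_card, Fintype.card_fin]; omega
  have hpt := pretrans n H S hS
  have hp : IsPreprimitive (fixingSubgroup H ((S : Set (Fin n))ᶜ))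
      (SubMulAction.ofFixingSubgroup H ((S : Set (Fin n))ᶜ)) := by
    apply IsPreprimitive.of_prime_card
    convert! Nat.prime_five
    rw [Nat.card_eq_fintype_card, Fintype.card_subtype, ← hcard]
    apply congr_arg
    ext x
    simp [SubMulAction.mem_ofFixingSubgroup_iff]
  have h2 : IsMultiplyPreprimitive H (Fin n) ((n - 6) + 2) :=
    hprim.isMultiplyPreprimitive hsn hsn' hp
  have h3 : IsMultiplyPretransitive H (Fin n) ((n - 6) + 2) :=
    h2.isMultiplyPretransitive
  exact isMultiplyPretransitive_of_le (m := 4) (n := (n - 6) + 2) (by omega) hsn'.le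

theorem exists_map (n : ℕ) (H : Subgroup (Perm (Fin n)))
    (h4 : IsMultiplyPretransitive H (Fin n) 4) (a b c d a' b' c' d' : Fin n)
    (h : [a, b, c, d].Nodup) (h' : [a', b', c', d'].Nodup) :
    ∃ g ∈ H, g a = a' ∧ g b = b' ∧ g c = c' ∧ g d = d' := by
  rw [isMultiplyPretransitive_iff] at h4
  have hx : Function.Injective ![a, b, c, d] := by
    have := List.nodup_iff_injective_get.1 h
    intro i j hij
    have h1 : ∀ k : Fin 4, [a, b, c, d].get k = ![a, b, c, d] k := by
      intro k; fin_cases k <;> rfl
    rw [← h1, ← h1] at hij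
    exact this hij
  have hy : Function.Injective ![a', b', c', d'] := by
    have := List.nodup_iff_injective_get.1 h'
    intro i j hij
    have h1 : ∀ k : Fin 4, [a', b', c', d'].get k = ![a', b', c', d'] k := by
      intro k; fin_cases k <;> rfl
    rw [← h1, ← h1] at hij
    exact this hij
  obtain ⟨g, hg⟩ := h4 ⟨_, hx⟩ ⟨_, hy⟩
  have hg' : ∀ i : Fin 4, (g : Perm (Fin n)) (![a, b, c, d] i) = ![a', b', c', d'] i := by
    intro i
    have := congrArg (fun f : Fin 4 ↪ Fin n => f i) hg
    exact this
  exact ⟨g, g.2, hg' 0, hg' 1, hg' 2, hg' 3⟩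

/-- Brick FIVE. -/
theorem main : K3h11.BS.StFive := by
  intro n H hn hprim S hcard hS F hF
  obtain ⟨a, b, c, d, hab, hac, had, hbc, hbd, hcd, -, hmem⟩ := hF
  have h4 := four_trans n H hn hprim S hcard hS
  have hbig : 2 < (({a, b, c, d} : Finset (Fin n))ᶜ).card := by
    rw [Finset.card_compl, Fintype.card_fin]
    have := Finset.card_le_four (a := a) (b := b) (c := c) (d := d)
    omega
  obtain ⟨e, he, f, hf, g, hg, hef, heg, hfg⟩ := Finset.two_lt_card.1 hbig
  simp only [Finset.mem_compl, Finset.mem_insert, Finset.mem_singleton, not_or] at he hf hg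
  obtain ⟨hea, heb, hec, hed⟩ := he
  obtain ⟨hfa, hfb, hfc, hfd⟩ := hf
  obtain ⟨hga, hgb, hgc, hgd⟩ := hg
  obtain ⟨k, hk, ka, kb, kc, kd⟩ := exists_map n H h4 a b c d a e f g
    (by simp [hab, hac, had, hbc, hbd, hcd])
    (by simp [Ne.symm hea, Ne.symm hfa, Ne.symm hga, hef, heg, hfg])
  have hconj : swap a e * swap f g ∈ H := by
    have h1 := H.mul_mem (H.mul_mem hk hmem) (H.inv_mem hk)
    have h2 : k * (swap a b * swap c d) * k⁻¹ = swap a e * swap f g := by
      have e1 : k * swap a b * k⁻¹ = swap (k a) (k b) := by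
        rw [Equiv.swap_apply_apply]
      have e2 : k * swap c d * k⁻¹ = swap (k c) (k d) := by
        rw [Equiv.swap_apply_apply]
      calc k * (swap a b * swap c d) * k⁻¹ = (k * swap a b * k⁻¹) * (k * swap c d * k⁻¹) := by
            group
        _ = _ := by rw [e1, e2, ka, kb, kc, kd]
    rwa [h2] at h1
  refine ⟨((swap a b * swap c d) * (swap a e * swap f g)) *
    ((swap a b * swap c d) * (swap a e * swap f g)),
    H.mul_mem (H.mul_mem hmem hconj) (H.mul_mem hmem hconj), ?_⟩
  have c1 : Commute (swap a b) (swap f g) := by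
    apply Disjoint.commute
    apply disjoint_swap_swap
    simp [hab, Ne.symm hfa, Ne.symm hga, Ne.symm hfb, Ne.symm hgb, hfg]
  have c2 : Commute (swap c d) (swap a e) := by
    apply Disjoint.commute
    apply disjoint_swap_swap
    simp [hcd, Ne.symm hac, Ne.symm had, Ne.symm hec, Ne.symm hed, Ne.symm hea]
  have c3 : Commute (swap c d) (swap a b) := by
    apply Disjoint.commute
    apply disjoint_swap_swap
    simp [hcd, Ne.symm hac, Ne.symm had, Ne.symm hbc, Ne.symm hbd, hab]
  have c4 : Commute (swap c d) (swap f g) := by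
    apply Disjoint.commute
    apply disjoint_swap_swap
    simp [hcd, Ne.symm hfc, Ne.symm hfd, Ne.symm hgc, Ne.symm hgd, hfg]
  have c5 : Commute (swap f g) (swap a e) := by
    apply Disjoint.commute
    apply disjoint_swap_swap
    simp [hfg, hfa, hga, Ne.symm hef, Ne.symm heg, Ne.symm hea]
  have key : ((swap a b * swap c d) * (swap a e * swap f g)) *
      ((swap a b * swap c d) * (swap a e * swap f g)) =
      (swap a b * swap a e) * (swap a b * swap a e) := by
    have cv : Commute (swap c d * swap f g) (swap a b * swap a e) :=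
      (c3.mul_right c2).mul_left (c1.symm.mul_right c5)
    have hP : (swap a b * swap c d) * (swap a e * swap f g) =
        (swap a b * swap a e) * (swap c d * swap f g) := by
      calc (swap a b * swap c d) * (swap a e * swap f g)
          = swap a b * (swap c d * swap a e) * swap f g := by simp only [mul_assoc]
        _ = swap a b * (swap a e * swap c d) * swap f g := by rw [c2.eq]
        _ = _ := by simp only [mul_assoc]
    have hvv : (swap c d * swap f g) * (swap c d * swap f g) = 1 := by
      calc (swap c d * swap f g) * (swap c d * swap f g)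
          = swap c d * (swap f g * swap c d) * swap f g := by simp only [mul_assoc]
        _ = swap c d * (swap c d * swap f g) * swap f g := by rw [c4.eq]
        _ = (swap c d * swap c d) * (swap f g * swap f g) := by simp only [mul_assoc]
        _ = 1 := by rw [swap_mul_self, swap_mul_self, one_mul]
    rw [hP]
    calc (swap a b * swap a e) * (swap c d * swap f g) *
          ((swap a b * swap a e) * (swap c d * swap f g))
        = (swap a b * swap a e) * ((swap c d * swap f g) *
          (swap a b * swap a e)) * (swap c d * swap f g) := by simp only [mul_assoc]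
      _ = (swap a b * swap a e) * ((swap a b * swap a e) *
          (swap c d * swap f g)) * (swap c d * swap f g) := by rw [cv.eq]
      _ = (swap a b * swap a e) * (swap a b * swap a e) *
          ((swap c d * swap f g) * (swap c d * swap f g)) := by simp only [mul_assoc]
      _ = _ := by rw [hvv, mul_one]
  rw [key]
  exact (isThreeCycle_swap_mul_swap_same hab (Ne.symm hea) (Ne.symm heb)).isThreeCycle_sq

end K3h11.BS.Five
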