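import Pool.Agent.K3h11.BS.Stm

/-!
# Bricks G1 and G2

Two good sets (4-sets carrying a double transposition of `H`) do not meet in exactly one point
when `H` has no 3-cycle, and the symmetric difference of two good sets meeting in two points is
good.
-/

set_option autoImplicit false

open Equiv Equiv.Perm MulAction

namespace K3h11.BS.G12

theorem comm_swaps {n : ℕ} {x y z t : Fin n} (h1 : x ≠ z) (h2 : x ≠ t) (h3 : y ≠ z) (h4 : y ≠ t) :
    Commute (swap x y) (swap z t) := by
  by_cases hxy : x = y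
  · subst hxy
    rw [swap_self]
    exact Commute.one_left _
  by_cases hzt : z = t
  · subst hzt
    rw [swap_self]
    exact Commute.one_right _
  refine (Equiv.Perm.disjoint_swap_swap ?_).commute
  simp [hxy, hzt, h1, h2, h3, h4]

/-- Normal form of a good set at one of its points. -/
theorem norm {n : ℕ} {H : Subgroup (Perm (Fin n))} {F : Finset (Fin n)} (hF : GoodSet n H F)
    {u : Fin n} (hu : u ∈ F) :
    ∃ b c d : Fin n, u ≠ b ∧ u ≠ c ∧ u ≠ d ∧ b ≠ c ∧ b ≠ d ∧ c ≠ d ∧ F = {u, b, c, d} ∧
      swap u b * swap c d ∈ H := by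
  obtain ⟨a, b, c, d, hab, hac, had, hbc, hbd, hcd, rfl, hH⟩ := hF
  simp only [Finset.mem_insert, Finset.mem_singleton] at hu
  have hcomm : swap a b * swap c d = swap c d * swap a b := comm_swaps hac had hbc hbd
  rcases hu with rfl | rfl | rfl | rfl
  · exact ⟨b, c, d, hab, hac, had, hbc, hbd, hcd, rfl, hH⟩
  · refine ⟨a, c, d, hab.symm, hbc, hbd, hac, had, hcd, ?_, ?_⟩
    · ext x; simp only [Finset.mem_insert, Finset.mem_singleton]; tauto
    · rw [swap_comm]; exact hH
  · refine ⟨d, a, b, hcd, hac.symm, hbc.symm, had.symm, hbd.symm, hab, ?_, ?_⟩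
    · ext x; simp only [Finset.mem_insert, Finset.mem_singleton]; tauto
    · rw [← hcomm]; exact hH
  · refine ⟨c, a, b, hcd.symm, had.symm, hbd.symm, hac.symm, hbc.symm, hab, ?_, ?_⟩
    · ext x; simp only [Finset.mem_insert, Finset.mem_singleton]; tauto
    · rw [swap_comm u c, ← hcomm]; exact hH

/-- Normal form of a good set at two of its points. -/
theorem norm2 {n : ℕ} {H : Subgroup (Perm (Fin n))} {F : Finset (Fin n)} (hF : GoodSet n H F)
    {u v : Fin n} (hu : u ∈ F) (hv : v ∈ F) (huv : u ≠ v) :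
    ∃ a b : Fin n, u ≠ a ∧ u ≠ b ∧ v ≠ a ∧ v ≠ b ∧ a ≠ b ∧ F = {u, v, a, b} ∧
      (swap u a * swap v b ∈ H ∨ swap u v * swap a b ∈ H) := by
  obtain ⟨b, c, d, hub, huc, hud, hbc, hbd, hcd, rfl, hH⟩ := norm hF hu
  simp only [Finset.mem_insert, Finset.mem_singleton] at hv
  rcases hv with rfl | rfl | rfl | rfl
  · exact absurd rfl huv
  · exact ⟨c, d, huc, hud, hbc, hbd, hcd, rfl, Or.inr hH⟩
  · refine ⟨b, d, hub, hud, hbc.symm, hcd, hbd, ?_, Or.inl hH⟩
    ext x; simp only [Finset.mem_insert, Finset.mem_singleton]; tauto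
  · refine ⟨b, c, hub, huc, hbd.symm, hcd.symm, hbc, ?_, Or.inl ?_⟩
    · ext x; simp only [Finset.mem_insert, Finset.mem_singleton]; tauto
    · rw [swap_comm v c]; exact hH

theorem g1 : StG1 := by
  intro n H h3 F F' hF hF' hcard
  obtain ⟨u, hu⟩ := Finset.card_eq_one.mp hcard
  have huF : u ∈ F ∧ u ∈ F' := by
    have : u ∈ F ∩ F' := by rw [hu]; exact Finset.mem_singleton_self u
    exact Finset.mem_inter.mp this
  have key : ∀ x, x ∈ F → x ∈ F' → x = u := by
    intro x hx hx'
    have : x ∈ F ∩ F' := Finset.mem_inter.mpr ⟨hx, hx'⟩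
    rw [hu] at this
    exact Finset.mem_singleton.mp this
  obtain ⟨b, c, d, hub, huc, hud, hbc, hbd, hcd, hFe, hH⟩ := norm hF huF.1
  obtain ⟨b', c', d', hub', huc', hud', hbc', hbd', hcd', hFe', hH'⟩ := norm hF' huF.2
  have hb : ∀ y, (y = b ∨ y = c ∨ y = d) → ∀ z, (z = b' ∨ z = c' ∨ z = d') → y ≠ z := by
    intro y hy z hz hyz
    have h1 : y ∈ F := by rw [hFe]; simp only [Finset.mem_insert, Finset.mem_singleton]; tauto
    have h2 : y ∈ F' := by
      rw [hyz, hFe']; simp only [Finset.mem_insert, Finset.mem_singleton]; tauto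
    have h3 := key y h1 h2
    rcases hy with rfl | rfl | rfl
    · exact hub h3.symm
    · exact huc h3.symm
    · exact hud h3.symm
  have hbb' : b ≠ b' := hb b (by tauto) b' (by tauto)
  have c1 : Commute (swap c d) (swap u b') :=
    comm_swaps huc.symm (hb c (by tauto) b' (by tauto)) hud.symm (hb d (by tauto) b' (by tauto))
  have c2 : Commute (swap c d) (swap c' d') :=
    comm_swaps (hb c (by tauto) c' (by tauto)) (hb c (by tauto) d' (by tauto))
      (hb d (by tauto) c' (by tauto)) (hb d (by tauto) d' (by tauto))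
  have c3 : Commute (swap u b) (swap c d) := comm_swaps huc hud hbc hbd
  have c4 : Commute (swap u b) (swap c' d') :=
    comm_swaps huc' hud' (hb b (by tauto) c' (by tauto)) (hb b (by tauto) d' (by tauto))
  have c5 : Commute (swap u b') (swap c' d') := comm_swaps huc' hud' hbc' hbd'
  have hst : Commute (swap u b * swap u b') (swap c d * swap c' d') :=
    (c3.mul_left c1.symm).mul_right (c4.mul_left c5)
  have heq : swap u b * swap c d * (swap u b' * swap c' d') =
      (swap u b * swap u b') * (swap c d * swap c' d') := by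
    rw [mul_assoc, ← mul_assoc (swap c d), c1.eq]
    simp only [mul_assoc]
  have ht : (swap c d * swap c' d') ^ 2 = 1 := by
    rw [c2.mul_pow, pow_two, pow_two, swap_mul_self, swap_mul_self, one_mul]
  have hsq : (swap u b * swap c d * (swap u b' * swap c' d')) ^ 2 = (swap u b * swap u b') ^ 2 := by
    rw [heq, hst.mul_pow, ht, mul_one]
  have hthree : IsThreeCycle ((swap u b * swap u b') * (swap u b * swap u b')) :=
    (isThreeCycle_swap_mul_swap_same hub hub' hbb').isThreeCycle_sq
  refine h3 _ ?_ hthree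
  rw [← pow_two, ← hsq]
  exact H.pow_mem (H.mul_mem hH hH') 2

/-- Images of good sets are good. -/
theorem image_good {n : ℕ} {H : Subgroup (Perm (Fin n))} {F : Finset (Fin n)}
    (hF : GoodSet n H F) {h : Perm (Fin n)} (hh : h ∈ H) : GoodSet n H (F.image h) := by
  obtain ⟨a, b, c, d, hab, hac, had, hbc, hbd, hcd, rfl, hH⟩ := hF
  refine ⟨h a, h b, h c, h d, h.injective.ne hab, h.injective.ne hac, h.injective.ne had,
    h.injective.ne hbc, h.injective.ne hbd, h.injective.ne hcd, ?_, ?_⟩
  · simp [Finset.image_insert]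
  · have : swap (h a) (h b) * swap (h c) (h d) = h * (swap a b * swap c d) * h⁻¹ := by
      rw [← mul_assoc h, mul_swap_eq_swap_mul h a b, mul_assoc (swap (h a) (h b)),
        mul_swap_eq_swap_mul h c d]
      group
    rw [this]
    exact H.mul_mem (H.mul_mem hh hH) (H.inv_mem hh)

theorem symm_four {n : ℕ} {u v a b c d : Fin n} (hua : u ≠ a) (hub : u ≠ b) (hva : v ≠ a)
    (hvb : v ≠ b) (huc : u ≠ c) (hud : u ≠ d) (hvc : v ≠ c) (hvd : v ≠ d) (hac : a ≠ c)
    (had : a ≠ d) (hbc : b ≠ c) (hbd : b ≠ d) :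
    symmDiff ({u, v, a, b} : Finset (Fin n)) {u, v, c, d} = {a, b, c, d} := by
  ext x
  simp only [Finset.mem_symmDiff, Finset.mem_insert, Finset.mem_singleton]
  constructor
  · tauto
  · rintro (rfl | rfl | rfl | rfl)
    · left; refine ⟨by tauto, ?_⟩
      rintro (h | h | h | h)
      · exact hua h.symm
      · exact hva h.symm
      · exact hac h
      · exact had h
    · left; refine ⟨by tauto, ?_⟩
      rintro (h | h | h | h)
      · exact hub h.symm
      · exact hvb h.symm
      · exact hbc h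
      · exact hbd h
    · right; refine ⟨by tauto, ?_⟩
      rintro (h | h | h | h)
      · exact huc h.symm
      · exact hvc h.symm
      · exact hac h.symm
      · exact hbc h.symm
    · right; refine ⟨by tauto, ?_⟩
      rintro (h | h | h | h)
      · exact hud h.symm
      · exact hvd h.symm
      · exact had h.symm
      · exact hbd h.symm

/-- The moving case. -/
theorem g2_move {n : ℕ} {H : Subgroup (Perm (Fin n))} {F' : Finset (Fin n)}
    (hF' : GoodSet n H F') {u v a b c d : Fin n} (huv : u ≠ v)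
    (hua : u ≠ a) (hub : u ≠ b) (hva : v ≠ a)
    (hvb : v ≠ b) (hab : a ≠ b) (huc : u ≠ c) (hud : u ≠ d) (hvc : v ≠ c) (hvd : v ≠ d)
    (hac : a ≠ c) (had : a ≠ d) (hbc : b ≠ c) (hbd : b ≠ d) (hFe' : F' = {u, v, c, d})
    (hH : swap u a * swap v b ∈ H) : GoodSet n H {a, b, c, d} := by
  have h := image_good hF' hH
  have he : F'.image (swap u a * swap v b) = {a, b, c, d} := by
    rw [hFe']
    simp only [Finset.image_insert, Finset.image_singleton, Perm.mul_apply]
    rw [swap_apply_of_ne_of_ne huv hub, swap_apply_left, swap_apply_left,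
      swap_apply_of_ne_of_ne hub.symm hab.symm, swap_apply_of_ne_of_ne hvc.symm hbc.symm,
      swap_apply_of_ne_of_ne huc.symm hac.symm, swap_apply_of_ne_of_ne hvd.symm hbd.symm,
      swap_apply_of_ne_of_ne hud.symm had.symm]
  rwa [he] at h

theorem g2 : StG2 := by
  intro n H F F' hF hF' hcard
  obtain ⟨u, v, huv, hint⟩ := Finset.card_eq_two.mp hcard
  have huF : u ∈ F ∧ u ∈ F' := by
    have : u ∈ F ∩ F' := by rw [hint]; simp
    exact Finset.mem_inter.mp this
  have hvF : v ∈ F ∧ v ∈ F' := by
    have : v ∈ F ∩ F' := by rw [hint]; simp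
    exact Finset.mem_inter.mp this
  have key : ∀ x, x ∈ F → x ∈ F' → x = u ∨ x = v := by
    intro x hx hx'
    have : x ∈ F ∩ F' := Finset.mem_inter.mpr ⟨hx, hx'⟩
    rw [hint] at this
    simpa using this
  obtain ⟨a, b, hua, hub, hva, hvb, hab, hFe, hH⟩ := norm2 hF huF.1 hvF.1 huv
  obtain ⟨c, d, huc, hud, hvc, hvd, hcd, hFe', hH'⟩ := norm2 hF' huF.2 hvF.2 huv
  have hne : ∀ y, (y = a ∨ y = b) → ∀ z, (z = c ∨ z = d) → y ≠ z := by
    intro y hy z hz hyz
    have h1 : y ∈ F := by rw [hFe]; simp only [Finset.mem_insert, Finset.mem_singleton]; tauto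
    have h2 : y ∈ F' := by
      rw [hyz, hFe']; simp only [Finset.mem_insert, Finset.mem_singleton]; tauto
    rcases hy with rfl | rfl <;> rcases key y h1 h2 with h | h
    · exact hua h.symm
    · exact hva h.symm
    · exact hub h.symm
    · exact hvb h.symm
  have hac := hne a (by tauto) c (by tauto)
  have had := hne a (by tauto) d (by tauto)
  have hbc := hne b (by tauto) c (by tauto)
  have hbd := hne b (by tauto) d (by tauto)
  have hsymm : symmDiff F F' = {a, b, c, d} := by
    rw [hFe, hFe']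
    exact symm_four hua hub hva hvb huc hud hvc hvd hac had hbc hbd
  rw [hsymm]
  rcases hH with hH | hH
  · exact g2_move hF' huv hua hub hva hvb hab huc hud hvc hvd hac had hbc hbd hFe' hH
  rcases hH' with hH' | hH'
  · have := g2_move hF huv huc hud hvc hvd hcd hua hub hva hvb hac.symm hbc.symm had.symm
      hbd.symm hFe hH'
    have he : ({a, b, c, d} : Finset (Fin n)) = {c, d, a, b} := by
      ext x; simp only [Finset.mem_insert, Finset.mem_singleton]; tauto
    rw [he]; exact this
  · refine ⟨a, b, c, d, hab, hac, had, hbc, hbd, hcd, rfl, ?_⟩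
    have hc1 : swap u v * swap a b = swap a b * swap u v := comm_swaps hua hub hva hvb
    have he : swap a b * swap c d = (swap u v * swap a b) * (swap u v * swap c d) := by
      rw [hc1, mul_assoc, ← mul_assoc (swap u v), swap_mul_self, one_mul]
    rw [he]
    exact H.mul_mem hH hH'

theorem main : K3h11.BS.StG1 ∧ K3h11.BS.StG2 := ⟨g1, g2⟩

end K3h11.BS.G12
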