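import Pool.Agent.K3h11.BS.Stm

set_option autoImplicit false

namespace K3h11.BS.G3

open Equiv Equiv.Perm MulAction

lemma comm_swaps {n : ℕ} {a b c d : Fin n} (hab : a ≠ b) (hac : a ≠ c) (had : a ≠ d) (hbc : b ≠ c)
    (hbd : b ≠ d) (hcd : c ≠ d) : swap a b * swap c d = swap c d * swap a b := by
  have h : [a, b, c, d].Nodup := by simp [hab, hac, had, hbc, hbd, hcd]
  exact (Equiv.Perm.disjoint_swap_swap h).commute.eq

lemma normal {n : ℕ} {H : Subgroup (Perm (Fin n))} {F : Finset (Fin n)} (hF : GoodSet n H F)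
    {p : Fin n} (hp : p ∈ F) : ∃ u w w' : Fin n, p ≠ u ∧ p ≠ w ∧ p ≠ w' ∧ u ≠ w ∧ u ≠ w' ∧ w ≠ w' ∧
      F = {p, u, w, w'} ∧ swap p u * swap w w' ∈ H := by
  obtain ⟨a, b, c, d, ab, ac, ad, bc, bd, cd, rfl, h⟩ := hF
  simp only [Finset.mem_insert, Finset.mem_singleton] at hp
  rcases hp with rfl | rfl | rfl | rfl
  · exact ⟨b, c, d, ab, ac, ad, bc, bd, cd, rfl, h⟩
  · refine ⟨a, c, d, ab.symm, bc, bd, ac, ad, cd, ?_, ?_⟩
    · ext x
      simp only [Finset.mem_insert, Finset.mem_singleton]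
      tauto
    · rw [swap_comm]
      exact h
  · refine ⟨d, a, b, cd, ac.symm, bc.symm, ad.symm, bd.symm, ab, ?_, ?_⟩
    · ext x
      simp only [Finset.mem_insert, Finset.mem_singleton]
      tauto
    · rw [← comm_swaps ab ac ad bc bd cd]
      exact h
  · refine ⟨c, a, b, cd.symm, ad.symm, bd.symm, ac.symm, bc.symm, ab, ?_, ?_⟩
    · ext x
      simp only [Finset.mem_insert, Finset.mem_singleton]
      tauto
    · rw [swap_comm p c, ← comm_swaps ab ac ad bc bd cd]
      exact h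

/-- the same partner -/
lemma same {n : ℕ} {H : Subgroup (Perm (Fin n))} (h3 : ∀ s ∈ H, ¬ IsThreeCycle s)
    {p q u w w' : Fin n} (hpq : p ≠ q) (hpu : p ≠ u) (hpw : p ≠ w) (hpw' : p ≠ w') (hqu : q ≠ u)
    (hqw : q ≠ w) (hqw' : q ≠ w') (huw : u ≠ w) (huw' : u ≠ w') (hww : w ≠ w')
    (ha : swap p u * swap w w' ∈ H) (hb : swap q u * swap w w' ∈ H) : False := by
  have h1 : (swap p u * swap w w') * (swap q u * swap w w') = swap u p * swap u q := by
    rw [comm_swaps hqu hqw hqw' huw huw' hww, mul_assoc, ← mul_assoc (swap w w') (swap w w'),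
      swap_mul_self, one_mul, swap_comm p u, swap_comm q u]
  have h2 := H.mul_mem ha hb
  rw [h1] at h2
  exact h3 _ h2 (isThreeCycle_swap_mul_swap_same hpu.symm hqu.symm hpq)

/-- five points -/
lemma five (hFive : K3h11.BS.StFive) {n : ℕ} (hn : 8 ≤ n) {H : Subgroup (Perm (Fin n))}
    (hP : IsPreprimitive H (Fin n)) {F : Finset (Fin n)} (hF : GoodSet n H F)
    (h3 : ∀ s ∈ H, ¬ IsThreeCycle s)
    {p q u v w : Fin n} (hpq : p ≠ q) (hpu : p ≠ u) (hpv : p ≠ v) (hpw : p ≠ w) (hqu : q ≠ u)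
    (hqv : q ≠ v) (hqw : q ≠ w) (huv : u ≠ v) (huw : u ≠ w) (hvw : v ≠ w)
    (ha : swap p u * swap v w ∈ H) (hb : swap q v * swap u w ∈ H) : False := by
  classical
  obtain ⟨S, hS⟩ : ∃ S : Finset (Fin n), S = {p, q, u, v, w} := ⟨_, rfl⟩
  have hmem : ∀ z, z ∉ S → z ≠ p ∧ z ≠ q ∧ z ≠ u ∧ z ≠ v ∧ z ≠ w := by
    intro z hz
    rw [hS] at hz
    simp only [Finset.mem_insert, Finset.mem_singleton, not_or] at hz
    exact hz
  let R : Fin n → Fin n → Prop := fun x y => ∃ h ∈ H, h x = y ∧ ∀ z, z ∉ S → h z = z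
  have hsymm : ∀ x y, R x y → R y x := by
    rintro x y ⟨h, hh, h1, h2⟩
    refine ⟨h⁻¹, H.inv_mem hh, ?_, fun z hz => ?_⟩
    · rw [← h1]
      exact h.symm_apply_apply x
    · have h4 := h2 z hz
      nth_rewrite 1 [← h4]
      exact h.symm_apply_apply z
  have htrans : ∀ x y z, R x y → R y z → R x z := by
    rintro x y z ⟨h, hh, h1, h2⟩ ⟨h', hh', h1', h2'⟩
    refine ⟨h' * h, H.mul_mem hh' hh, ?_, fun t ht => ?_⟩
    · rw [Perm.mul_apply, h1, h1']
    · rw [Perm.mul_apply, h2 t ht, h2' t ht]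
  have hafix : ∀ z, z ∉ S → (swap p u * swap v w) z = z := by
    intro z hz
    obtain ⟨z1, z2, z3, z4, z5⟩ := hmem z hz
    rw [Perm.mul_apply, swap_apply_of_ne_of_ne z4 z5, swap_apply_of_ne_of_ne z1 z3]
  have hbfix : ∀ z, z ∉ S → (swap q v * swap u w) z = z := by
    intro z hz
    obtain ⟨z1, z2, z3, z4, z5⟩ := hmem z hz
    rw [Perm.mul_apply, swap_apply_of_ne_of_ne z3 z5, swap_apply_of_ne_of_ne z2 z4]
  have r0 : R p p := ⟨1, H.one_mem, rfl, fun _ _ => rfl⟩
  have r1 : R p u := ⟨_, ha, by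
    rw [Perm.mul_apply, swap_apply_of_ne_of_ne hpv hpw, swap_apply_left], hafix⟩
  have r2 : R u w := ⟨_, hb, by
    rw [Perm.mul_apply, swap_apply_left, swap_apply_of_ne_of_ne hqw.symm hvw.symm], hbfix⟩
  have r3 : R w v := ⟨_, ha, by
    rw [Perm.mul_apply, swap_apply_right, swap_apply_of_ne_of_ne hpv.symm huv.symm], hafix⟩
  have r4 : R v q := ⟨_, hb, by
    rw [Perm.mul_apply, swap_apply_of_ne_of_ne huv.symm hvw, swap_apply_right], hbfix⟩
  have r5 := htrans _ _ _ r1 r2
  have r6 := htrans _ _ _ r5 r3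
  have r7 := htrans _ _ _ r6 r4
  have hall : ∀ x ∈ S, R p x := by
    intro x hx
    rw [hS] at hx
    simp only [Finset.mem_insert, Finset.mem_singleton] at hx
    rcases hx with rfl | rfl | rfl | rfl | rfl
    · exact r0
    · exact r7
    · exact r1
    · exact r6
    · exact r5
  have hcard : S.card = 5 := by
    rw [hS]
    rw [Finset.card_insert_of_notMem (by simp [hpq, hpu, hpv, hpw]),
      Finset.card_insert_of_notMem (by simp [hqu, hqv, hqw]),
      Finset.card_insert_of_notMem (by simp [huv, huw]),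
      Finset.card_insert_of_notMem (by simp [hvw]), Finset.card_singleton]
  obtain ⟨s, hs, hs3⟩ := hFive n H hn hP S hcard
    (fun x hx y hy => htrans _ _ _ (hsymm _ _ (hall x hx)) (hall y hy)) F hF
  exact h3 s hs hs3

lemma card4 {n : ℕ} {H : Subgroup (Perm (Fin n))} {F : Finset (Fin n)} (hF : GoodSet n H F) :
    F.card = 4 := by
  obtain ⟨a, b, c, d, ab, ac, ad, bc, bd, cd, rfl, h⟩ := hF
  rw [Finset.card_insert_of_notMem (by simp [ab, ac, ad]),
      Finset.card_insert_of_notMem (by simp [bc, bd]),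
      Finset.card_insert_of_notMem (by simp [cd]), Finset.card_singleton]

lemma out {n : ℕ} {F F' : Finset (Fin n)} (hF : F.card = 4)
    (h : (F ∩ F').card = 3) : ∃ p ∈ F, p ∉ F' := by
  classical
  by_contra hcon
  push Not at hcon
  have h1 : F ∩ F' = F := Finset.inter_eq_left.2 hcon
  rw [h1] at h
  omega

lemma three {n : ℕ} {F F' : Finset (Fin n)} {p u w w' : Fin n} (hpu : p ≠ u) (hpw : p ≠ w)
    (hpw' : p ≠ w') (huw : u ≠ w) (huw' : u ≠ w') (hww : w ≠ w') (hF : F = {p, u, w, w'})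
    (hp : p ∉ F') (h : (F ∩ F').card = 3) : F ∩ F' = {u, w, w'} := by
  classical
  apply Finset.eq_of_subset_of_card_le
  · intro x hx
    rw [Finset.mem_inter, hF] at hx
    obtain ⟨h1, h2⟩ := hx
    simp only [Finset.mem_insert, Finset.mem_singleton] at h1 ⊢
    rcases h1 with rfl | h1
    · exact absurd h2 hp
    · exact h1
  · rw [h]
    exact Finset.card_le_three

theorem main : K3h11.BS.StFive → K3h11.BS.StG3 := by
  intro hFive n H hn hP h3 F F' hF hF' hc
  classical
  obtain ⟨p, hpF, hpF'⟩ := out (card4 hF) hc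
  have hc' : (F' ∩ F).card = 3 := by rw [Finset.inter_comm]; exact hc
  obtain ⟨q, hqF', hqF⟩ := out (card4 hF') hc'
  obtain ⟨u, w, w', hpu, hpw, hpw', huw, huw', hww, hFe, ha⟩ := normal hF hpF
  obtain ⟨v, y, y', hqv, hqy, hqy', hvy, hvy', hyy, hFe', hb⟩ := normal hF' hqF'
  have e1 := three hpu hpw hpw' huw huw' hww hFe hpF' hc
  have e2 := three hqv hqy hqy' hvy hvy' hyy hFe' hqF hc'
  rw [Finset.inter_comm, e1] at e2
  have hpq : p ≠ q := by
    rintro rfl
    exact hpF' hqF'
  have hin : ∀ x ∈ F, x ≠ q := by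
    rintro x hx rfl
    exact hqF hx
  have hqu : u ≠ q := hin u (by rw [hFe]; simp)
  have hqw : w ≠ q := hin w (by rw [hFe]; simp)
  have hqw' : w' ≠ q := hin w' (by rw [hFe]; simp)
  have hu : u ∈ ({v, y, y'} : Finset (Fin n)) := by rw [← e2]; simp
  have hw : w ∈ ({v, y, y'} : Finset (Fin n)) := by rw [← e2]; simp
  have hw' : w' ∈ ({v, y, y'} : Finset (Fin n)) := by rw [← e2]; simp
  simp only [Finset.mem_insert, Finset.mem_singleton] at hu hw hw'
  rcases hu with rfl | rfl | rfl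
  · -- the same partner
    rcases hw with h | rfl | rfl
    · exact huw h.symm
    · rcases hw' with h | h | rfl
      · exact huw' h.symm
      · exact hww h.symm
      · exact same h3 hpq hpu hpw hpw' hqu.symm hqw.symm hqw'.symm huw huw' hww ha hb
    · rcases hw' with h | rfl | h
      · exact huw' h.symm
      · rw [swap_comm w' w] at hb
        exact same h3 hpq hpu hpw hpw' hqu.symm hqw.symm hqw'.symm huw huw' hww ha hb
      · exact hww h.symm
  · -- `u = y`
    rcases hw with rfl | h | rfl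
    · rcases hw' with h | h | rfl
      · exact hww h.symm
      · exact huw' h.symm
      · exact five hFive hn hP hF h3 hpq hpu hpw hpw' hqu.symm hqw.symm hqw'.symm huw huw' hww ha hb
    · exact huw h.symm
    · rcases hw' with rfl | h | h
      · rw [swap_comm w w'] at ha
        exact five hFive hn hP hF h3 hpq hpu hpw' hpw hqu.symm hqw'.symm hqw.symm huw' huw hww.symm ha hb
      · exact huw' h.symm
      · exact hww h.symm
  · -- `u = y'`
    rcases hw with rfl | rfl | h
    · rcases hw' with h | rfl | h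
      · exact hww h.symm
      · rw [swap_comm w' u] at hb
        exact five hFive hn hP hF h3 hpq hpu hpw hpw' hqu.symm hqw.symm hqw'.symm huw huw' hww ha hb
      · exact huw' h.symm
    · rcases hw' with rfl | h | h
      · rw [swap_comm w u] at hb
        rw [swap_comm w w'] at ha
        exact five hFive hn hP hF h3 hpq hpu hpw' hpw hqu.symm hqw'.symm hqw.symm huw' huw hww.symm ha hb
      · exact hww h.symm
      · exact huw' h.symm
    · exact huw h.symm

end K3h11.BS.G3
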