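import Pool.Agent.K3h11.BS.Stm

/-!
# Greedy bases for faithful actions of symmetric groups
-/

set_option autoImplicit false

open Equiv Equiv.Perm MulAction

namespace K3h11.BS.Grd

universe u

theorem aux (n : ℕ) (X : Type u) [MulAction (Perm (Fin n)) X]
    [FaithfulSMul (Perm (Fin n)) X] : ∀ N : ℕ, ∀ K : Subgroup (Perm (Fin n)), Nat.card K = N →
      ∃ B : Finset X, B.card ≤ ArithmeticFunction.cardFactors (Nat.card K) ∧
        ∀ k ∈ K, (∀ x ∈ B, k • x = x) → k = 1 := by
  classical
  intro N
  induction N using Nat.strong_induction_on with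
  | _ N ih =>
    intro K hK
    by_cases hb : K = ⊥
    · refine ⟨∅, by simp, ?_⟩
      intro k hk _
      rw [hb] at hk
      exact Subgroup.mem_bot.1 hk
    · have h0 : ∃ k ∈ K, k ≠ 1 := by
        by_contra hcon
        push Not at hcon
        exact hb ((Subgroup.eq_bot_iff_forall K).2 hcon)
      obtain ⟨k, hk, hk1⟩ := h0
      have h1 : ∃ x : X, k • x ≠ x := by
        by_contra hcon
        push Not at hcon
        exact hk1 (FaithfulSMul.eq_of_smul_eq_smul (α := X) (fun a => by rw [hcon a, one_smul]))
      obtain ⟨x, hx⟩ := h1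
      have hle : K ⊓ stabilizer (Perm (Fin n)) x ≤ K := inf_le_left
      have hdvd : Nat.card (K ⊓ stabilizer (Perm (Fin n)) x : Subgroup (Perm (Fin n))) ∣
          Nat.card K := Subgroup.card_dvd_of_le hle
      have hlt : Nat.card (K ⊓ stabilizer (Perm (Fin n)) x : Subgroup (Perm (Fin n))) <
          Nat.card K := by
        rcases lt_or_eq_of_le (Nat.le_of_dvd Nat.card_pos hdvd) with h | h
        · exact h
        · exfalso
          have h2 : K ⊓ stabilizer (Perm (Fin n)) x = K :=
            Subgroup.eq_of_le_of_card_ge hle h.ge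
          have hk' : k ∈ K ⊓ stabilizer (Perm (Fin n)) x := by rw [h2]; exact hk
          exact hx (mem_stabilizer_iff.1 hk'.2)
      obtain ⟨B, hB, hB2⟩ := ih _ (hK ▸ hlt) (K ⊓ stabilizer (Perm (Fin n)) x) rfl
      obtain ⟨m, hm⟩ := hdvd
      refine ⟨insert x B, ?_, ?_⟩
      · have hpos : Nat.card (K ⊓ stabilizer (Perm (Fin n)) x : Subgroup (Perm (Fin n))) ≠ 0 :=
          Nat.card_pos.ne'
        have hm0 : m ≠ 0 := by
          rintro rfl
          rw [mul_zero] at hm
          exact Nat.card_pos.ne' hm
        have hm1 : m ≠ 1 := by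
          rintro rfl
          rw [mul_one] at hm
          omega
        have hm2 : 1 ≤ ArithmeticFunction.cardFactors m := by
          rcases Nat.eq_zero_or_pos (ArithmeticFunction.cardFactors m) with h | h
          · rcases ArithmeticFunction.cardFactors_eq_zero_iff_eq_zero_or_one.1 h with h | h
            · exact absurd h hm0
            · exact absurd h hm1
          · exact h
        rw [hm, ArithmeticFunction.cardFactors_mul hpos hm0]
        have := Finset.card_insert_le x B
        omega
      · intro g hg hgB
        refine hB2 g ⟨hg, mem_stabilizer_iff.2 (hgB x (Finset.mem_insert_self _ _))⟩ ?_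
        intro y hy
        exact hgB y (Finset.mem_insert_of_mem hy)

theorem main.{v} : K3h11.BS.StGreedy.{v} := by
  intro n X _ _ K
  exact aux n X _ K rfl

end K3h11.BS.Grd
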