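import Pool.Agent.K3h11.BS.Stm

/-!
# Brick INTR: intransitive subgroups
-/

set_option autoImplicit false

open Equiv Equiv.Perm MulAction

namespace K3h11.BS.Intr

theorem main : K3h11.BS.StIntr := by
  intro n H A hA hA' hH
  obtain ⟨x₀, hx₀⟩ := hA
  obtain ⟨m, rfl⟩ : ∃ m, n = m + 1 := ⟨n - 1, by have := x₀.isLt; omega⟩
  have hk0 : 0 < A.card := Finset.card_pos.mpr ⟨x₀, hx₀⟩
  have hkn : A.card < m + 1 := by
    have h1 : A.card < (Finset.univ : Finset (Fin (m + 1))).card :=
      Finset.card_lt_card ((Finset.subset_univ A).ssubset_of_ne hA')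
    simpa using h1
  -- the initial segment
  have hcard : Fintype.card {x : Fin (m + 1) // x.val < A.card} =
      Fintype.card {x : Fin (m + 1) // x ∈ A} := by
    rw [Fintype.card_coe, Fintype.card_subtype]
    have h1 : Finset.univ.filter (fun x : Fin (m + 1) => x.val < A.card) =
        (Finset.univ : Finset (Fin A.card)).map (Fin.castLEEmb hkn.le) := by
      ext x
      simp only [Finset.mem_filter, Finset.mem_univ, true_and, Finset.mem_map,
        Fin.castLEEmb_apply]
      constructor
      · intro hx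
        exact ⟨⟨x.val, hx⟩, Fin.ext rfl⟩
      · rintro ⟨y, rfl⟩
        exact y.isLt
    rw [h1, Finset.card_map, Finset.card_univ, Fintype.card_fin]
  let e : {x : Fin (m + 1) // x.val < A.card} ≃ {x : Fin (m + 1) // x ∈ A} :=
    Fintype.equivOfCardEq hcard
  let s : Perm (Fin (m + 1)) := e.extendSubtype
  have hs : ∀ u, s u ∈ A ↔ u.val < A.card := by
    intro u
    constructor
    · intro h
      by_contra hu
      exact e.extendSubtype_not_mem u hu h
    · intro h
      exact e.extendSubtype_mem u h
  refine ⟨fun i => Equiv.addRight i * s⁻¹, fun k hk => ?_⟩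
  have key : ∀ i v : Fin (m + 1), (k v - i).val < A.card ↔ (v - i).val < A.card := by
    intro i v
    have h1 := hH _ (hk i) (s (v - i))
    rw [hs] at h1
    rw [← h1, ← hs]
    have h2 : ((Equiv.addRight i * s⁻¹)⁻¹ * k * (Equiv.addRight i * s⁻¹)) (s (v - i)) =
        s (k v - i) := by
      simp [Equiv.Perm.mul_apply, sub_eq_add_neg]
    rw [h2]
  ext v
  rw [Equiv.Perm.one_apply]
  congr 1
  have h1 : (k v - v).val < A.card := (key v v).mpr (by simpa using hk0)
  have h2 : ¬ (k v - (v + 1)).val < A.card := by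
    rw [key]
    have h3 : v - (v + 1) = 0 - 1 := by abel
    rw [h3, Fin.coe_sub_one, if_pos rfl]
    omega
  have h4 : k v - (v + 1) = k v - v - 1 := by abel
  rw [h4, Fin.coe_sub_one] at h2
  by_cases h0 : k v - v = 0
  · exact sub_eq_zero.mp h0
  · rw [if_neg h0] at h2
    omega

end K3h11.BS.Intr
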