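import Pool.Agent.K3h11.BS.Stm

/-!
# Brick N8: degree eight (by helper70)
-/

set_option autoImplicit false

namespace K3h11.BS.N8

open Equiv Equiv.Perm MulAction
open ArithmeticFunction (cardFactors)

/-- overgroups of preprimitive groups are preprimitive -/
theorem prim_mono {H L : Subgroup (Perm (Fin 8))} (hHL : H ≤ L)
    (hH : IsPreprimitive H (Fin 8)) : IsPreprimitive L (Fin 8) := by
  let f : Fin 8 →ₑ[Subgroup.inclusion hHL] Fin 8 :=
    { toFun := id
      map_smul' := fun _ _ => rfl }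
  exact IsPreprimitive.of_surjective (f := f) Function.surjective_id

theorem lemD (h5 : StFive) (hS : StSmall) (L : Subgroup (Perm (Fin 8)))
    (hL : IsPreprimitive L (Fin 8)) (hA : ¬ alternatingGroup (Fin 8) ≤ L)
    (hF : ∃ F, GoodSet 8 L F) : Nat.card L ∣ 1344 := by
  have hsw : ∀ s ∈ L, ¬ IsSwap s := by
    intro s hs hsw
    apply hA
    rw [subgroup_eq_top_of_isPreprimitive_of_isSwap_mem hL s hsw hs]
    exact le_top
  have h3 : ∀ s ∈ L, ¬ IsThreeCycle s := fun s hs h3 =>
    hA (alternatingGroup_le_of_isPreprimitive_of_isThreeCycle_mem hL h3 hs)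
  refine (hS 8 L hsw h3).2 rfl ?_
  intro hdiv
  have : Fact (Nat.Prime 5) := ⟨by norm_num⟩
  obtain ⟨c, hc⟩ := exists_prime_orderOf_dvd_card' 5 hdiv
  have hc' : orderOf (c : Perm (Fin 8)) = 5 := by rw [Subgroup.orderOf_coe]; exact hc
  have hcyc : (c : Perm (Fin 8)).IsCycle :=
    isCycle_of_prime_order' (by rw [hc']; norm_num) (by rw [hc']; simp)
  have hcard : (c : Perm (Fin 8)).support.card = 5 := by rw [← hcyc.orderOf]; exact hc'
  obtain ⟨F, hF⟩ := hF
  obtain ⟨s, hs, hs3⟩ := h5 8 L le_rfl hL (c : Perm (Fin 8)).support hcard (by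
    intro x hx y hy
    obtain ⟨i, hi⟩ := hcyc.sameCycle (mem_support.1 hx) (mem_support.1 hy)
    refine ⟨(c : Perm (Fin 8)) ^ i, L.zpow_mem c.2 i, hi, ?_⟩
    intro z hz
    exact zpow_apply_eq_self_of_apply_eq_self (notMem_support.1 hz) i) F hF
  exact h3 s hs hs3

theorem om1344 : cardFactors 1344 = 8 := by
  have h : (1344 : ℕ) = 2 ^ 6 * (3 * 7) := by norm_num
  rw [h, ArithmeticFunction.cardFactors_mul (by norm_num) (by norm_num),
    ArithmeticFunction.cardFactors_mul (by norm_num) (by norm_num),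
    ArithmeticFunction.cardFactors_apply_prime_pow Nat.prime_two,
    ArithmeticFunction.cardFactors_apply_prime Nat.prime_three,
    ArithmeticFunction.cardFactors_apply_prime (by norm_num)]

theorem lemP (h5 : StFive) (hS : StSmall) (H : Subgroup (Perm (Fin 8)))
    (hH : IsPreprimitive H (Fin 8)) (hA : ¬ alternatingGroup (Fin 8) ≤ H)
    (hF : ∃ F, GoodSet 8 H F) (hcard : Nat.card H = 1344) (P L : Subgroup (Perm (Fin 8)))
    (hPH : P ≤ H) (c : Perm (Fin 8)) (hcP : c ∈ P) (hc : orderOf c = 7) (hHL : H ≤ L)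
    (hLP : L ≤ Subgroup.normalizer (P : Set (Perm (Fin 8)))) : L = H := by
  have hLA : ¬ alternatingGroup (Fin 8) ≤ L := by
    intro hAL
    have : IsSimpleGroup (alternatingGroup (Fin 8)) := alternatingGroup.isSimpleGroup (by simp)
    have hn : (P.subgroupOf (alternatingGroup (Fin 8))).Normal :=
      Subgroup.normal_subgroupOf_of_le_normalizer (hAL.trans hLP)
    rcases hn.eq_bot_or_eq_top with h | h
    · have hcA : c ∈ alternatingGroup (Fin 8) := by
        rw [mem_alternatingGroup]
        have h1 : sign c ^ 7 = 1 := by rw [← map_pow, ← hc, pow_orderOf_eq_one, map_one]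
        rcases Int.units_eq_one_or (sign c) with h2 | h2
        · exact h2
        · rw [h2] at h1
          exact absurd h1 (by decide)
      have h3 : (⟨c, hcA⟩ : alternatingGroup (Fin 8)) ∈
          P.subgroupOf (alternatingGroup (Fin 8)) := hcP
      rw [h, Subgroup.mem_bot] at h3
      have h1 : c = 1 := congrArg Subtype.val h3
      rw [h1, orderOf_one] at hc
      norm_num at hc
    · exact hA ((Subgroup.subgroupOf_eq_top.1 h).trans hPH)
  have hLF : ∃ F, GoodSet 8 L F := by
    obtain ⟨F, a, b, c, d, h1, h2, h3, h4, h5, h6, h7, h8⟩ := hF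
    exact ⟨F, a, b, c, d, h1, h2, h3, h4, h5, h6, h7, hHL h8⟩
  have hd := lemD h5 hS L (prim_mono hHL hH) hLA hLF
  symm
  apply Subgroup.eq_of_le_of_card_ge hHL
  rw [hcard]
  exact Nat.le_of_dvd (by norm_num) hd

theorem conj_norm (H : Subgroup (Perm (Fin 8))) (g : Perm (Fin 8))
    (h : ∀ x ∈ H, g * x * g⁻¹ ∈ H) :
    g ∈ Subgroup.normalizer (H : Set (Perm (Fin 8))) := by
  rw [Subgroup.mem_normalizer_iff_map_conj_eq]
  apply Subgroup.eq_of_le_of_card_ge
  · rintro _ ⟨x, hx, rfl⟩
    exact h x hx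
  · rw [Subgroup.card_map_of_injective (MulAut.conj g).injective]

theorem ord7 (K H : Subgroup (Perm (Fin 8))) (h0 : K.relIndex H ≠ 0) (h6 : K.relIndex H < 7)
    (x : Perm (Fin 8)) (hx : x ∈ H) (hx7 : orderOf x = 7) : x ∈ K := by
  obtain ⟨n, hn0, hn, hnK⟩ := Subgroup.exists_pow_mem_of_relIndex_ne_zero h0 hx
  have hcop : Nat.Coprime n (orderOf x) := by
    rw [hx7]
    refine ((Nat.Prime.coprime_iff_not_dvd (by norm_num)).2 fun h => ?_).symm
    have := Nat.le_of_dvd hn0 h
    omega
  obtain ⟨m, hm⟩ := exists_pow_eq_self_of_coprime hcop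
  rw [← hm]
  exact K.pow_mem hnK.1 m

theorem ord_conj (h x : Perm (Fin 8)) : orderOf (h * x * h⁻¹) = orderOf x :=
  orderOf_injective (MulAut.conj h).toMonoidHom (MulAut.conj h).injective x

theorem main : StFive → StOrd → StSmall → StN8 := by
  intro h5 _ hS H hH hA hF
  have hd := lemD h5 hS H hH hA hF
  by_cases hcard : Nat.card H = 1344
  swap
  · left
    obtain ⟨m, hm⟩ := hd
    have hm1 : m ≠ 1 := by
      rintro rfl
      exact hcard (by omega)
    have hm0 : m ≠ 0 := by
      rintro rfl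
      omega
    have hH0 : Nat.card H ≠ 0 := by
      intro h
      rw [h] at hm
      omega
    have h1 := om1344
    rw [hm, ArithmeticFunction.cardFactors_mul hH0 hm0] at h1
    have h2 : 0 < cardFactors m := ArithmeticFunction.cardFactors_pos_iff_one_lt.2 (by omega)
    omega
  right
  have : Fact (Nat.Prime 7) := ⟨by norm_num⟩
  obtain ⟨c', hc'⟩ := exists_prime_orderOf_dvd_card' (G := H) 7 (by rw [hcard]; norm_num)
  obtain ⟨c, hcdef⟩ : ∃ c : Perm (Fin 8), c = c' := ⟨_, rfl⟩
  have hcH : c ∈ H := hcdef ▸ c'.2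
  have hc : orderOf c = 7 := by rw [hcdef, Subgroup.orderOf_coe]; exact hc'
  have hN : Subgroup.normalizer (H : Set (Perm (Fin 8))) = H :=
    lemP h5 hS H hH hA hF hcard H _ le_rfl c hcH hc H.le_normalizer le_rfl
  have hG : IsPGroup 7 (Subgroup.zpowers c) :=
    IsPGroup.of_card (n := 1) (by rw [Nat.card_zpowers, hc, pow_one])
  have hfix := hG.card_modEq_card_fixedPoints (Perm (Fin 8) ⧸ H)
  have hq : Nat.card (Perm (Fin 8) ⧸ H) = 30 := by
    have h1 := H.card_mul_index
    rw [Subgroup.index_eq_card, hcard, Nat.card_perm, Nat.card_eq_fintype_card (α := Fin 8),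
      Fintype.card_fin] at h1
    have h2 : Nat.factorial 8 = 40320 := by decide
    rw [h2] at h1
    omega
  obtain ⟨g, hgH, hgc⟩ : ∃ g : Perm (Fin 8), g ∉ H ∧ g⁻¹ * c * g ∈ H := by
    by_contra hcon
    push Not at hcon
    have hone : ∀ a ∈ fixedPoints (Subgroup.zpowers c) (Perm (Fin 8) ⧸ H),
        a = QuotientGroup.mk 1 := by
      intro a ha
      induction a using QuotientGroup.induction_on with
      | H g =>
        have h1 := ha ⟨c, Subgroup.mem_zpowers c⟩
        have h2 : (QuotientGroup.mk (c * g) : Perm (Fin 8) ⧸ H) = QuotientGroup.mk g := h1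
        rw [QuotientGroup.eq] at h2
        have h3 : g⁻¹ * c * g ∈ H := by
          have h4 := H.inv_mem h2
          rwa [mul_inv_rev, inv_inv, ← mul_assoc] at h4
        have h4 : g ∈ H := by
          by_contra h5
          exact hcon g h5 h3
        rw [QuotientGroup.eq]
        simpa using h4
    have hsub : Nat.card (fixedPoints (Subgroup.zpowers c) (Perm (Fin 8) ⧸ H)) ≤ 1 := by
      rw [Finite.card_le_one_iff_subsingleton]
      exact ⟨fun a b => Subtype.ext ((hone a a.2).trans (hone b b.2).symm)⟩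
    rw [hq] at hfix
    generalize Nat.card (fixedPoints (Subgroup.zpowers c) (Perm (Fin 8) ⧸ H)) = N at hfix hsub
    interval_cases N
    · exact absurd hfix (by decide)
    · exact absurd hfix (by decide)
  refine ⟨g, fun K hK => ?_⟩
  have hKH : K ≤ H := fun k hk => ((hK k).1 hk).1
  have hcK : c ∈ K := (hK c).2 ⟨hcH, hgc⟩
  have hidx : ∀ H' : Subgroup (Perm (Fin 8)), K ≤ H' →
      Nat.card K * K.relIndex H' = Nat.card H' := by
    intro H' hKH'
    have h1 := (K.subgroupOf H').card_mul_index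
    rwa [Nat.card_congr (Subgroup.subgroupOfEquivOfLe hKH').toEquiv] at h1
  obtain ⟨m, hm⟩ : ∃ m, m = K.relIndex H := ⟨_, rfl⟩
  have hKm : Nat.card K * m = 1344 := by rw [hm, hidx H hKH, hcard]
  have hm0 : m ≠ 0 := by
    rintro rfl
    omega
  have hK0 : Nat.card K ≠ 0 := by
    intro h
    rw [h] at hKm
    omega
  have h7K : 7 ∣ Nat.card K := by
    have h1 : orderOf (⟨c, hcK⟩ : K) = 7 := by rw [← Subgroup.orderOf_coe]; exact hc
    rw [← h1]
    exact orderOf_dvd_natCard _
  have hm192 : m ∣ 192 := by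
    obtain ⟨t, ht⟩ := h7K
    refine ⟨t, ?_⟩
    rw [ht] at hKm
    have : 7 * (m * t) = 1344 := by rw [← hKm]; ring
    omega
  have hgN : ¬ ∀ x ∈ H, g * x * g⁻¹ ∈ H := by
    intro h
    have h1 := conj_norm H g h
    rw [hN] at h1
    exact hgH h1
  have hm1 : m ≠ 1 := by
    rintro rfl
    have h1 : K = H := by
      apply Subgroup.eq_of_le_of_card_ge hKH
      omega
    have h2 : g⁻¹ ∈ Subgroup.normalizer (H : Set (Perm (Fin 8))) := by
      apply conj_norm
      intro x hx
      rw [inv_inv]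
      exact ((hK x).1 (h1 ▸ hx)).2
    rw [hN] at h2
    exact hgH (by simpa using H.inv_mem h2)
  by_cases hmp : m.Prime
  · exfalso
    have hm3 : m ≤ 3 := by
      have h1 : m ∣ 2 ^ 6 * 3 := by norm_num; exact hm192
      rcases (Nat.Prime.dvd_mul hmp).1 h1 with h2 | h2
      · have := Nat.le_of_dvd (by norm_num) (hmp.dvd_of_dvd_pow h2)
        omega
      · exact Nat.le_of_dvd (by norm_num) h2
    obtain ⟨H', hH'⟩ : ∃ H' : Subgroup (Perm (Fin 8)), H' = H.map (MulAut.conj g).toMonoidHom :=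
      ⟨_, rfl⟩
    have hmem : ∀ x, x ∈ H' ↔ g⁻¹ * x * g ∈ H := by
      intro x
      rw [hH', Subgroup.mem_map]
      constructor
      · rintro ⟨y, hy, rfl⟩
        have : g⁻¹ * ((MulAut.conj g).toMonoidHom y) * g = y := by
          simp [mul_assoc]
        rwa [this]
      · intro hx
        exact ⟨g⁻¹ * x * g, hx, by simp [mul_assoc]⟩
    have hcard' : Nat.card H' = 1344 := by
      rw [hH', Subgroup.card_map_of_injective (MulAut.conj g).injective, hcard]
    have hKH' : K ≤ H' := fun k hk => (hmem k).2 ((hK k).1 hk).2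
    have hm' : K.relIndex H' = m := by
      have h1 := hidx H' hKH'
      rw [hcard', ← hKm] at h1
      exact Nat.eq_of_mul_eq_mul_left (Nat.pos_of_ne_zero hK0) h1
    have hnorm : ∀ L : Subgroup (Perm (Fin 8)), K.relIndex L = m → K ≤ L →
        L ≤ Subgroup.normalizer
          (Subgroup.closure {x : Perm (Fin 8) | x ∈ K ∧ orderOf x = 7} :
            Set (Perm (Fin 8))) := by
      intro L hL hKL
      rw [Subgroup.le_normalizer_closure_iff]
      rintro h hh x ⟨hx1, hx2⟩
      apply Subgroup.subset_closure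
      have h1 : orderOf (h * x * h⁻¹) = 7 := by rw [ord_conj, hx2]
      refine ⟨?_, h1⟩
      refine ord7 K L (by omega) (by omega) _ ?_ h1
      exact L.mul_mem (L.mul_mem hh (hKL hx1)) (L.inv_mem hh)
    have hL := lemP h5 hS H hH hA hF hcard
      (Subgroup.closure {x : Perm (Fin 8) | x ∈ K ∧ orderOf x = 7}) _
      ((Subgroup.closure_le _).2 fun x hx => hKH hx.1) c
      (Subgroup.subset_closure ⟨hcK, hc⟩) hc (hnorm H hm.symm hKH) le_rfl
    have h1 := hnorm H' hm' hKH'
    rw [hL] at h1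
    apply hgN
    intro x hx
    apply h1
    rw [hmem]
    simpa [mul_assoc] using hx
  · have h1 := om1344
    rw [← hKm, ArithmeticFunction.cardFactors_mul hK0 hm0] at h1
    have h2 : 0 < cardFactors m := ArithmeticFunction.cardFactors_pos_iff_one_lt.2 (by omega)
    have h3 : cardFactors m ≠ 1 :=
      fun h => hmp (ArithmeticFunction.cardFactors_eq_one_iff_prime.1 h)
    omega

end K3h11.BS.N8
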