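import Pool.Agent.K3h11.BS.Stm

/-! # Brick NDT (helper51) -/

set_option autoImplicit false

open Equiv Equiv.Perm

namespace K3h11.BS.Ndt

theorem main : K3h11.BS.StNdt := by
  intro n H hn hN K hK hK1
  obtain ⟨k₀, hk₀, hne⟩ : ∃ k : Perm (Fin n), k ∈ K ∧ k ≠ 1 := by
    obtain ⟨a, ha⟩ := Subgroup.ne_bot_iff_exists_ne_one.mp hK1
    exact ⟨a, a.2, fun h => ha (Subtype.ext h)⟩
  obtain ⟨x, hx⟩ : ∃ x, k₀ x ≠ x := by
    by_contra h
    push Not at h
    exact hne (Equiv.ext h)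
  obtain ⟨y, hy⟩ : ∃ y, y ∉ ({x, k₀ x} : Finset (Fin n)) := by
    by_contra h
    push Not at h
    have h1 : (Finset.univ : Finset (Fin n)) ⊆ {x, k₀ x} := fun y _ => h y
    have h2 := Finset.card_le_card h1
    rw [Finset.card_univ, Fintype.card_fin] at h2
    have h3 := Finset.card_le_two (a := x) (b := k₀ x)
    omega
  simp only [Finset.mem_insert, Finset.mem_singleton, not_or] at hy
  refine ⟨swap x y, x, k₀, hk₀, fun h hh hg heq => ?_⟩
  have h1 : swap (h⁻¹ x) (h⁻¹ y) * swap x y = h⁻¹ * ((swap x y)⁻¹ * h * swap x y) := by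
    rw [swap_inv, Equiv.swap_apply_apply, inv_inv]
    group
  have h2 : swap (h⁻¹ x) (h⁻¹ y) * swap x y ∈ H := by
    rw [h1]
    exact H.mul_mem (H.inv_mem (hK hh)) hg
  have h3 := hN _ _ _ _ h2
  rw [h1] at h3
  have h4 : (swap x y)⁻¹ * h * swap x y = h := (inv_mul_eq_one.mp h3).symm
  have h5 : h * swap x y = swap x y * h := by
    have h7 := congrArg (fun e : Perm (Fin n) => swap x y * e) h4
    simpa [mul_assoc] using h7
  have h6 := congrArg (fun e : Perm (Fin n) => e x) h5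
  simp only [Perm.mul_apply, swap_apply_left] at h6
  rw [heq, swap_apply_of_ne_of_ne hx (Ne.symm hy.2), ← heq] at h6
  exact hy.1 (h.injective h6)

end K3h11.BS.Ndt
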