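import Pool.Agent.K3h11.BS.Stm

set_option autoImplicit false

open Equiv

namespace K3h11.BS.Ord

/-- A subgroup of the symmetric group with the full power of `p` contains a conjugate of every
`p`-element. -/
theorem main : K3h11.BS.StOrd := by
  intro n H p hp hdvd s hs
  obtain ⟨k, hk⟩ := hs
  have : Fact p.Prime := ⟨hp⟩
  obtain ⟨Q⟩ : Nonempty (Sylow p H) := inferInstance
  have hcard : Nat.card Q = p ^ (Nat.card H).factorization p := Q.card_eq_multiplicity
  have hG : Nat.card (Perm (Fin n)) = n.factorial := by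
    rw [Nat.card_eq_fintype_card, Fintype.card_perm, Fintype.card_fin]
  have hH0 : Nat.card H ≠ 0 := Nat.card_pos.ne'
  have hfac : (Nat.card H).factorization p = n.factorial.factorization p := by
    refine le_antisymm ?_ ((hp.pow_dvd_iff_le_factorization hH0).1 hdvd)
    have h1 : Nat.card H ∣ n.factorial := hG ▸ H.card_subgroup_dvd_card
    exact (Nat.factorization_le_iff_dvd hH0 (Nat.factorial_ne_zero n)).2 h1 p
  have hc : Nat.card ((Q : Subgroup H).map H.subtype) =
      p ^ (Nat.card (Perm (Fin n))).factorization p := by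
    rw [hG, ← hfac, ← hcard]
    exact Nat.card_congr
      ((Q : Subgroup H).equivMapOfInjective H.subtype H.subtype_injective).symm.toEquiv
  have hz : IsPGroup p (Subgroup.zpowers s) :=
    IsPGroup.of_card (n := k) (by rw [Nat.card_zpowers, hk])
  obtain ⟨T, hT⟩ := hz.exists_le_sylow
  obtain ⟨g, hg⟩ := MulAction.exists_smul_eq (Perm (Fin n)) T
    (Sylow.ofCard ((Q : Subgroup H).map H.subtype) hc)
  refine ⟨g⁻¹, ?_⟩
  have hsT : s ∈ (T : Subgroup (Perm (Fin n))) := hT (Subgroup.mem_zpowers s)
  have h2 : MulAut.conj g s ∈ ((g • T : Sylow p (Perm (Fin n))) : Subgroup (Perm (Fin n))) := by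
    rw [Sylow.coe_subgroup_smul]
    exact Subgroup.smul_mem_pointwise_smul s (MulAut.conj g) (T : Subgroup (Perm (Fin n))) hsT
  rw [hg] at h2
  have h3 : MulAut.conj g s ∈ (Q : Subgroup H).map H.subtype := h2
  obtain ⟨y, -, hy⟩ := h3
  rw [MulAut.conj_apply] at hy
  rw [inv_inv, ← hy]
  exact y.2

end K3h11.BS.Ord
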