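import Pool.Agent.K3h11.BS.Stm

/-! # Brick PEQ (helper51) -/

set_option autoImplicit false

open Equiv Equiv.Perm MulAction
open scoped Pointwise

namespace K3h11.BS.PEq

theorem main : K3h11.BS.StPrimEq := by
  intro n H hH r hr
  have hinv : ∀ h ∈ H, ∀ x y, r (h x) (h y) → r x y := by
    intro h hh x y hxy
    have h1 := hr h⁻¹ (H.inv_mem hh) _ _ hxy
    simpa using h1
  have hblock : ∀ a : Fin n, IsBlock H {y | r a y} := by
    intro a
    rw [isBlock_iff_smul_eq_of_mem]
    intro g b hb hgb
    ext z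
    rw [Set.mem_smul_set_iff_inv_smul_mem]
    have hb' : r a b := hb
    have hgb' : r a ((g : Perm (Fin n)) b) := hgb
    have hz : (g⁻¹ • z : Fin n) = (g : Perm (Fin n))⁻¹ z := rfl
    rw [hz]
    have hgg : (g : Perm (Fin n)) ((g : Perm (Fin n))⁻¹ z) = z := by simp
    constructor
    · intro h
      have h1 : r a ((g : Perm (Fin n))⁻¹ z) := h
      have h2 : r b ((g : Perm (Fin n))⁻¹ z) := r.trans (r.symm hb') h1
      have h3 := hr g g.2 _ _ h2
      rw [hgg] at h3
      exact r.trans hgb' h3
    · intro h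
      have h1 : r a z := h
      have h2 : r ((g : Perm (Fin n)) b) z := r.trans (r.symm hgb') h1
      rw [← hgg] at h2
      have h3 := hinv g g.2 _ _ h2
      exact r.trans hb' h3
  by_cases hex : ∃ a : Fin n, {y | r a y} = (Set.univ : Set (Fin n))
  · obtain ⟨a, ha⟩ := hex
    left
    intro x y
    have h1 : x ∈ {y | r a y} := by rw [ha]; exact Set.mem_univ _
    have h2 : y ∈ {y | r a y} := by rw [ha]; exact Set.mem_univ _
    exact r.trans (r.symm h1) h2
  · right
    intro x y hxy
    rcases hH.isTrivialBlock_of_isBlock (hblock x) with h | h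
    · exact h (r.refl x) hxy
    · exact absurd ⟨x, h⟩ hex

end K3h11.BS.PEq
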