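import Pool.Agent.K3h11.BS.Stm

/-! # Brick SML (helper51) -/

set_option autoImplicit false

open Equiv Equiv.Perm

namespace K3h11.BS.Small

theorem fac {p k m : ℕ} (hp : p.Prime) (hm : ¬ p ∣ m) : (p ^ k * m).factorization p = k := by
  have hm0 : m ≠ 0 := fun h => hm (h ▸ dvd_zero p)
  rw [Nat.factorization_mul (pow_ne_zero _ hp.ne_zero) hm0, Finsupp.add_apply,
    Nat.factorization_pow, Finsupp.smul_apply, hp.factorization_self,
    Nat.factorization_eq_zero_of_not_dvd hm]
  simp

theorem red {p k m d : ℕ} (hp : p.Prime) (hm : ¬ p ∣ m) (hd : d ∣ p ^ (k + 1) * m)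
    (hnd : ¬ p ^ (k + 1) ∣ d) : d ∣ p ^ k * m := by
  have hm0 : m ≠ 0 := fun h => hm (h ▸ dvd_zero p)
  have hd0 : d ≠ 0 := by
    rintro rfl
    exact hnd (dvd_zero _)
  obtain ⟨j, e, he, rfl⟩ := Nat.exists_eq_pow_mul_and_not_dvd hd0 p hp.one_lt.ne'
  have hj : j ≤ k := by
    by_contra h
    push Not at h
    exact hnd (Dvd.dvd.mul_right (pow_dvd_pow p h) e)
  have he' : e ∣ m := by
    have h1 : e ∣ p ^ (k + 1) * m := (Dvd.intro_left _ rfl).trans hd
    exact (Nat.Coprime.pow_right _ ((hp.coprime_iff_not_dvd.mpr he).symm)).dvd_of_dvd_mul_left h1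
  exact mul_dvd_mul (pow_dvd_pow p hj) he'

theorem mono {d N : ℕ} (hN : N ≠ 0) (h : d ∣ N) :
    ArithmeticFunction.cardFactors d ≤ ArithmeticFunction.cardFactors N := by
  obtain ⟨e, rfl⟩ := h
  rw [ArithmeticFunction.cardFactors_mul (left_ne_zero_of_mul hN) (right_ne_zero_of_mul hN)]
  omega

theorem no2 (hO : K3h11.BS.StOrd) {n k m : ℕ} (H : Subgroup (Perm (Fin n)))
    (h2 : ∀ s ∈ H, ¬ IsSwap s) (hn : 2 ≤ n) (hf : n.factorial = 2 ^ k * m) (hm : ¬ 2 ∣ m) :
    ¬ 2 ^ k ∣ Nat.card H := by
  intro h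
  have h1 : (⟨0, by omega⟩ : Fin n) ≠ ⟨1, by omega⟩ := by
    intro h
    have := congrArg Fin.val h
    simp at this
  obtain ⟨g, hg⟩ := hO n H 2 Nat.prime_two (by rw [hf, fac Nat.prime_two hm]; exact h)
    (swap ⟨0, by omega⟩ ⟨1, by omega⟩) ⟨1, by
      rw [pow_one]
      exact (swap_isSwap_iff.mpr h1).orderOf⟩
  apply h2 _ hg
  refine ⟨g⁻¹ ⟨0, by omega⟩, g⁻¹ ⟨1, by omega⟩, fun h => h1 (g⁻¹.injective h), ?_⟩
  rw [Equiv.swap_apply_apply, inv_inv]

theorem no3 (hO : K3h11.BS.StOrd) {n k m : ℕ} (H : Subgroup (Perm (Fin n)))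
    (h3 : ∀ s ∈ H, ¬ IsThreeCycle s) (hn : 3 ≤ n) (hf : n.factorial = 3 ^ k * m)
    (hm : ¬ 3 ∣ m) : ¬ 3 ^ k ∣ Nat.card H := by
  intro h
  obtain ⟨a, b, c, hab, hac, hbc⟩ : ∃ a b c : Fin n, a ≠ b ∧ a ≠ c ∧ b ≠ c := by
    refine ⟨⟨0, by omega⟩, ⟨1, by omega⟩, ⟨2, by omega⟩, ?_, ?_, ?_⟩ <;>
    · intro h
      have := congrArg Fin.val h
      simp at this
  have hc : IsThreeCycle (swap a b * swap a c) := isThreeCycle_swap_mul_swap_same hab hac hbc
  obtain ⟨g, hg⟩ := hO n H 3 Nat.prime_three (by rw [hf, fac Nat.prime_three hm]; exact h)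
    (swap a b * swap a c) ⟨1, by
      rw [pow_one]
      exact hc.orderOf⟩
  apply h3 _ hg
  have h4 := cycleType_conj (σ := (swap a b * swap a c)) (τ := g⁻¹)
  rw [inv_inv] at h4
  exact h4.trans hc

theorem main : K3h11.BS.StOrd → K3h11.BS.StSmall := by
  intro hO n H h2 h3
  have hcard : Nat.card H ∣ n.factorial := by
    have h1 := Subgroup.card_subgroup_dvd_card H
    rwa [Nat.card_perm, Nat.card_fin] at h1
  have p2 := Nat.prime_two
  have p3 := Nat.prime_three
  have p5 := Nat.prime_five
  have p7 : Nat.Prime 7 := by norm_num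
  have o2 : ArithmeticFunction.cardFactors 2 = 1 := ArithmeticFunction.cardFactors_apply_prime p2
  have o3 : ArithmeticFunction.cardFactors 3 = 1 := ArithmeticFunction.cardFactors_apply_prime p3
  have o5 : ArithmeticFunction.cardFactors 5 = 1 := ArithmeticFunction.cardFactors_apply_prime p5
  have o7 : ArithmeticFunction.cardFactors 7 = 1 := ArithmeticFunction.cardFactors_apply_prime p7
  have o4 : ArithmeticFunction.cardFactors (2 * 2) = 2 := by
    rw [ArithmeticFunction.cardFactors_mul two_ne_zero two_ne_zero, o2]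
  have o20 : ArithmeticFunction.cardFactors 20 = 3 := by
    have h := ArithmeticFunction.cardFactors_mul (m := 2 * 2) (n := 5) (by norm_num) (by norm_num)
    rw [o4, o5] at h
    exact h
  have o6 : ArithmeticFunction.cardFactors (2 * 3) = 2 := by
    rw [ArithmeticFunction.cardFactors_mul two_ne_zero three_ne_zero, o2, o3]
  have o120 : ArithmeticFunction.cardFactors 120 = 5 := by
    have h := ArithmeticFunction.cardFactors_mul (m := 20) (n := 2 * 3) (by norm_num) (by norm_num)
    rw [o20, o6] at h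
    exact h
  have o840 : ArithmeticFunction.cardFactors 840 = 6 := by
    have h := ArithmeticFunction.cardFactors_mul (m := 120) (n := 7) (by norm_num) (by norm_num)
    rw [o120, o7] at h
    exact h
  constructor
  · rintro (rfl | rfl | rfl)
    · have e : Nat.factorial 5 = 120 := by decide
      have a2 := no2 hO (k := 3) (m := 15) H h2 (by norm_num) (by rw [e]; norm_num) (by norm_num)
      have a3 := no3 hO (k := 1) (m := 40) H h3 (by norm_num) (by rw [e]; norm_num) (by norm_num)
      rw [e] at hcard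
      have b1 := red (k := 2) (m := 15) p2 (by norm_num) (by norm_num; exact hcard) a2
      have b2 := red (k := 0) (m := 20) p3 (by norm_num) (by norm_num at b1 ⊢; exact b1) a3
      have b3 := mono (by norm_num) b2
      norm_num [o20] at b3
      omega
    · have e : Nat.factorial 6 = 720 := by decide
      have a2 := no2 hO (k := 4) (m := 45) H h2 (by norm_num) (by rw [e]; norm_num) (by norm_num)
      have a3 := no3 hO (k := 2) (m := 80) H h3 (by norm_num) (by rw [e]; norm_num) (by norm_num)
      rw [e] at hcard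
      have b1 := red (k := 3) (m := 45) p2 (by norm_num) (by norm_num; exact hcard) a2
      have b2 := red (k := 1) (m := 40) p3 (by norm_num) (by norm_num at b1 ⊢; exact b1) a3
      have b3 := mono (by norm_num) b2
      norm_num [o120] at b3
      omega
    · have e : Nat.factorial 7 = 5040 := by decide
      have a2 := no2 hO (k := 4) (m := 315) H h2 (by norm_num) (by rw [e]; norm_num) (by norm_num)
      have a3 := no3 hO (k := 2) (m := 560) H h3 (by norm_num) (by rw [e]; norm_num) (by norm_num)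
      rw [e] at hcard
      have b1 := red (k := 3) (m := 315) p2 (by norm_num) (by norm_num; exact hcard) a2
      have b2 := red (k := 1) (m := 280) p3 (by norm_num) (by norm_num at b1 ⊢; exact b1) a3
      have b3 := mono (by norm_num) b2
      norm_num [o840] at b3
      omega
  · rintro rfl h5
    have e : Nat.factorial 8 = 40320 := by decide
    have a2 := no2 hO (k := 7) (m := 315) H h2 (by norm_num) (by rw [e]; norm_num) (by norm_num)
    have a3 := no3 hO (k := 2) (m := 4480) H h3 (by norm_num) (by rw [e]; norm_num) (by norm_num)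
    rw [e] at hcard
    have b1 := red (k := 6) (m := 315) p2 (by norm_num) (by norm_num; exact hcard) a2
    have b2 := red (k := 1) (m := 2240) p3 (by norm_num) (by norm_num at b1 ⊢; exact b1) a3
    have b3 := red (k := 0) (m := 1344) p5 (by norm_num) (by norm_num at b2 ⊢; exact b2)
      (by norm_num; exact h5)
    norm_num at b3
    exact b3

end K3h11.BS.Small
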