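import Pool.Agent.K3h11.BS.Stm

set_option autoImplicit false

/-!
# Brick STEP

If every nontrivial subgroup `K ≤ H` can be cut by a conjugate of `H` so that the number of orbits
goes up, then `n` conjugates of `H` meet trivially.
-/

open Equiv Equiv.Perm

namespace K3h11.BS.Step

/-- The orbit relation of `K`. -/
def orb {n : ℕ} (K : Subgroup (Perm (Fin n))) : Setoid (Fin n) where
  r x y := ∃ k ∈ K, k x = y
  iseqv := by
    refine ⟨fun x => ⟨1, K.one_mem, rfl⟩, ?_, ?_⟩
    · rintro x y ⟨k, hk, rfl⟩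
      exact ⟨k⁻¹, K.inv_mem hk, by simp⟩
    · rintro x y z ⟨k, hk, rfl⟩ ⟨l, hl, rfl⟩
      exact ⟨l * k, K.mul_mem hl hk, rfl⟩

/-- The number of orbits. -/
noncomputable def o {n : ℕ} (K : Subgroup (Perm (Fin n))) : ℕ := Nat.card (Quotient (orb K))

theorem factA {n : ℕ} {K K' : Subgroup (Perm (Fin n))} (hle : K' ≤ K) (x : Fin n)
    (k : Perm (Fin n)) (hk : k ∈ K) (hne : ∀ h ∈ K', h x ≠ k x) : o K < o K' := by
  classical
  have hmap : ∀ a b : Fin n, (orb K') a b → (orb K) a b := by
    rintro a b ⟨h, hh, e⟩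
    exact ⟨h, hle hh, e⟩
  let f : Quotient (orb K') → Quotient (orb K) :=
    Quotient.map' id (fun a b h => hmap a b h)
  have hsurj : Function.Surjective f := by
    intro q
    induction q using Quotient.inductionOn with
    | h a => exact ⟨Quotient.mk _ a, rfl⟩
  have hninj : ¬ Function.Injective f := by
    intro hinj
    have h1 : f (Quotient.mk _ x) = f (Quotient.mk _ (k x)) :=
      Quotient.sound (s := orb K) ⟨k, hk, rfl⟩
    obtain ⟨h, hh, e⟩ := Quotient.exact (hinj h1)
    exact hne h hh e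
  haveI : Fintype (Quotient (orb K)) := Fintype.ofFinite _
  haveI : Fintype (Quotient (orb K')) := Fintype.ofFinite _
  unfold o
  rw [Nat.card_eq_fintype_card, Nat.card_eq_fintype_card]
  exact Fintype.card_lt_of_surjective_not_injective f hsurj hninj

theorem factB {n : ℕ} {K : Subgroup (Perm (Fin n))} (h : n ≤ o K) : K = ⊥ := by
  classical
  haveI : Fintype (Quotient (orb K)) := Fintype.ofFinite _
  have hsurj : Function.Surjective (Quotient.mk (orb K)) := Quotient.mk_surjective
  have hinj : Function.Injective (Quotient.mk (orb K)) := by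
    by_contra hn
    have h1 := Fintype.card_lt_of_surjective_not_injective _ hsurj hn
    rw [Fintype.card_fin, ← Nat.card_eq_fintype_card] at h1
    unfold o at h
    omega
  rw [Subgroup.eq_bot_iff_forall]
  intro k hk
  ext x
  have h1 : (Quotient.mk (orb K) x) = Quotient.mk (orb K) (k x) := Quotient.sound ⟨k, hk, rfl⟩
  have h2 := hinj h1
  simp [← h2]

/-- The elements `k` with `(g i)⁻¹ k g i ∈ H` for all `i ≤ j`. -/
def KK {n : ℕ} (H : Subgroup (Perm (Fin n))) (g : ℕ → Perm (Fin n)) (j : ℕ) :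
    Subgroup (Perm (Fin n)) where
  carrier := {k | ∀ i ≤ j, (g i)⁻¹ * k * g i ∈ H}
  one_mem' := fun i _ => by simp [H.one_mem]
  mul_mem' := by
    intro a b ha hb i hi
    have h1 := H.mul_mem (ha i hi) (hb i hi)
    have h2 : (g i)⁻¹ * (a * b) * g i = (g i)⁻¹ * a * g i * ((g i)⁻¹ * b * g i) := by group
    rw [h2]; exact h1
  inv_mem' := by
    intro a ha i hi
    have h1 := H.inv_mem (ha i hi)
    have h2 : (g i)⁻¹ * a⁻¹ * g i = ((g i)⁻¹ * a * g i)⁻¹ := by group
    rw [h2]; exact h1

theorem o_pos {n : ℕ} (hn : 1 ≤ n) (K : Subgroup (Perm (Fin n))) : 1 ≤ o K := by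
  haveI : Nonempty (Quotient (orb K)) := ⟨Quotient.mk _ (⟨0, hn⟩ : Fin n)⟩
  exact Nat.one_le_iff_ne_zero.2 (Nat.card_pos (α := Quotient (orb K))).ne'

theorem ind {n : ℕ} (hn : 1 ≤ n) (H : Subgroup (Perm (Fin n))) (hS : StepProp n H) (j : ℕ) :
    ∃ g : ℕ → Perm (Fin n), g 0 = 1 ∧ (KK H g j = ⊥ ∨ j + 1 ≤ o (KK H g j)) := by
  induction j with
  | zero => exact ⟨fun _ => 1, rfl, Or.inr (by simpa using o_pos hn _)⟩
  | succ j ih =>
    obtain ⟨g, g0, hg⟩ := ih
    by_cases hb : KK H g j = ⊥
    · refine ⟨g, g0, Or.inl ?_⟩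
      rw [eq_bot_iff, ← hb]
      intro k hk i hi
      exact hk i (by omega)
    · have hle : KK H g j ≤ H := by
        intro k hk
        have := hk 0 (Nat.zero_le _)
        rw [g0] at this
        simpa using this
      obtain ⟨γ, x, k, hk, hne⟩ := hS _ hle hb
      have hcard : j + 1 ≤ o (KK H g j) := hg.resolve_left hb
      refine ⟨fun i => if i ≤ j then g i else γ, by simp [g0], Or.inr ?_⟩
      have h1 : KK H (fun i => if i ≤ j then g i else γ) (j + 1) ≤ KK H g j := by
        intro l hl i hi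
        have := hl i (by omega)
        simpa [hi] using this
      have h2 := factA h1 x k hk (fun h hh => by
        refine hne h (h1 hh) ?_
        have := hh (j + 1) le_rfl
        simpa using this)
      omega

theorem main : K3h11.BS.StStep := by
  intro n H hn hS
  obtain ⟨g, -, hg⟩ := ind hn H hS (n - 1)
  have hbot : KK H g (n - 1) = ⊥ := by
    rcases hg with h | h
    · exact h
    · exact factB (by omega)
  refine ⟨fun i => g i, fun k hk => ?_⟩
  have h1 : k ∈ KK H g (n - 1) := by
    intro i hi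
    exact hk ⟨i, by omega⟩
  rw [hbot] at h1
  exact Subgroup.mem_bot.1 h1

end K3h11.BS.Step
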